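import Pool.Agent.Helper11.ZU.Gen
import Pool.Agent.Helper11.ZT.ExCurve

/-! # Zilber-Pink for translates: conclusions and an explicit curve -/

open UpperHalfPlane Finset MvPolynomial

namespace Pool.Agent.Helper11.ZU
open Pool.Agent.Helper11.ZP Pool.Agent.Helper20.ZT Pool.Agent.Helper20.ZT.Prim Pool.Agent.Helper11.ZI
  Pool.Agent.Helper11.ZT

/-- the finite list of the possible degrees: for every prime `p ≥ p₀` dividing the denominators of
`α` and `β`, exactly `e` and `f` times, the numbers `e f g ^ 2 / gcd(e, f) ^ 2` with `g ∣ p - 1` -/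
def levels (p₀ : ℕ) (α β : ℚ) : Finset ℕ :=
  ((α.den.primeFactors ∩ β.den.primeFactors).filter (p₀ ≤ ·)).biUnion fun p =>
    (p - 1).divisors.image fun g => padicValNat p α.den * padicValNat p β.den * g ^ 2 /
      (Nat.gcd (padicValNat p α.den) (padicValNat p β.den)) ^ 2

lemma mem_levels {p₀ : ℕ} {α β : ℚ} {N : ℕ} (h : IsLevel p₀ α β N) : N ∈ levels p₀ α β := by
  obtain ⟨p, g, hp, hpp, h1, h2, h3, h4⟩ := h
  rw [levels, mem_biUnion]
  refine ⟨p, ?_, ?_⟩
  · rw [mem_filter, mem_inter]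
    exact ⟨⟨Nat.mem_primeFactors.2 ⟨hp, h1, α.den_nz⟩, Nat.mem_primeFactors.2 ⟨hp, h2, β.den_nz⟩⟩, hpp⟩
  · rw [mem_image]
    refine ⟨g, Nat.mem_divisors.2 ⟨h3, by have := hp.one_lt; omega⟩, ?_⟩
    rw [← h4]
    have he0 := exp_pos hp α h1
    exact Nat.mul_div_cancel _ (pow_pos (Nat.gcd_pos_of_pos_left _ he0) 2)

variable {n : ℕ}

/-- every atypical subvariety of `V` lies in one of the special hypersurfaces of the finite list -/
def AtypicalCovered (p₀ : ℕ) (a : Fin n → ℚ) (V : Set (Fin n → ℂ)) : Prop :=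
  ∀ A, IsAtypical V A → ∃ i j : Fin n, i ≠ j ∧ ∃ N ∈ levels p₀ (a i) (a j),
    ∀ x ∈ A, CyclicIsog N (x i) (x j)

theorem covered {d p₀ : ℕ} {Z : Set (Fin n → ℂ)} (hp₀ : 2 < p₀)
    (hgp : ∀ p : ℕ, p.Prime → p₀ ≤ p → GoodPlace d Z p) {a : Fin n → ℚ} (ha : CommonPrimes p₀ d a)
    {V : Set (Fin n → ℂ)} (hVZ : V ⊆ translate Z a) (hd : d ≤ dim V) : AtypicalCovered p₀ a V := by
  rintro A ⟨S, ⟨hA, hAVS, -⟩, hlt⟩
  obtain ⟨i, j, N, hij, hN, h⟩ := atypical_pair hp₀ hgp ha S hA (fun x hx => hVZ (hAVS hx).1)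
    (fun x hx => (hAVS hx).2) (by omega)
  exact ⟨i, j, hij, N, mem_levels hN, h⟩

theorem notDense {d p₀ : ℕ} {Z : Set (Fin n → ℂ)} (hp₀ : 2 < p₀)
    (hgp : ∀ p : ℕ, p.Prime → p₀ ≤ p → GoodPlace d Z p) {a : Fin n → ℚ} (ha : CommonPrimes p₀ d a)
    {V : Set (Fin n → ℂ)} (hV : IsSubvariety V) (hVZ : V ⊆ translate Z a) (hd : d ≤ dim V)
    (hVS : ∀ S : SpecialData n, dim S.carrier < n → ¬ V ⊆ S.carrier) : AtypicalNotDense V := by
  obtain ⟨f, hf, hf2⟩ := exists_prod p₀ a hV hVS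
  refine ⟨f, ?_, fun A hA x hx => hf2 x ?_⟩
  · by_contra hcon
    push Not at hcon
    exact hf (mem_van.2 hcon)
  · obtain ⟨S, ⟨hA, hAVS, -⟩, hlt⟩ := hA
    obtain ⟨i, j, N, hij, hN, h⟩ := atypical_pair hp₀ hgp ha S hA (fun x hx => hVZ (hAVS hx).1)
      (fun x hx => (hAVS hx).2) (by omega)
    exact ⟨i, j, N, hij, hN, h x hx⟩

theorem finite_max {V : Set (Fin n → ℂ)} (hV : IsSubvariety V) (hd : dim V = 1)
    (h : (∀ S : SpecialData n, dim S.carrier < n → ¬ V ⊆ S.carrier) → AtypicalNotDense V) :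
    (maxAtypical V).Finite := by
  by_cases hVV : IsAtypical V V
  · refine (Set.finite_singleton V).subset ?_
    rintro A ⟨hA, hmax⟩
    obtain ⟨S, ⟨-, hAV, -⟩, -⟩ := hA
    exact (hmax V hVV fun z hz => (hAV hz).1).symm
  · obtain ⟨f, ⟨v, hv, hfv⟩, hf2⟩ := h fun S hS hcon => hVV (isAtypical_self hV S hS hcon)
    have hfin := finite_section hV hd.le (f := f) fun hcon => hfv (mem_van.1 hcon v hv)
    refine hfin.finite_subsets.subset ?_
    rintro A ⟨hA, -⟩ z hz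
    obtain ⟨S, ⟨-, hAV, -⟩, -⟩ := id hA
    exact ⟨(hAV hz).1, hf2 A hA z hz⟩

/-! ### An explicit curve -/

lemma goodPlace_of_genPosAt {d p : ℕ} {Z : Set (Fin n → ℂ)} {O : ValuationSubring ℂ}
    (hpO : (p : ℂ) ∈ O.nonunits) (h : GenPosAt O d Z) : GoodPlace d Z p := by
  refine ⟨O, hpO, fun J hJ => ?_⟩
  obtain ⟨f, h1, h2, h3, h4⟩ := h J hJ
  exact ⟨f, h1, h2, le_antisymm ((val_mem O).1 (h2 _)) (not_lt.1 fun h5 => h3 ((val_non O).2 h5)), h4⟩

lemma goodPlace_curve {p : ℕ} (hp : p.Prime) (hn : n ≤ p) : GoodPlace 1 (ZT.curve n) p := by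
  obtain ⟨O, hpO⟩ := exists_place_above hp
  exact goodPlace_of_genPosAt hpO (genPosAt_curve hp hn hpO)

section
open Polynomial

/-- the translated curve -/
lemma curve_translate (hn : 0 < n) (a : Fin n → ℚ) :
    IsSubvariety (translate (ZT.curve n) a) ∧ dim (translate (ZT.curve n) a) = 1 := by
  set A : Fin n → ℚ[X] := fun i => Polynomial.X + Polynomial.C (a i) * (1 - Polynomial.C (i : ℚ) * Polynomial.X)
    with hA
  set B : Fin n → ℚ[X] := fun i => 1 - Polynomial.C (i : ℚ) * Polynomial.X with hB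
  have hB0 : ∀ i, B i ≠ 0 := by
    intro i h
    have h1 := congrArg (Polynomial.eval 0) h
    simp [hB] at h1
  have eB : ∀ (i : Fin n) (s : ℂ), Polynomial.aeval s (B i) = 1 - i * s := by
    intro i s
    simp [hB]
  have eA : ∀ (i : Fin n) (s : ℂ), Polynomial.aeval s (A i) = s + a i * (1 - i * s) := by
    intro i s
    simp [hA]
  have hC : translate (ZT.curve n) a = ratCurve A B := by
    ext z
    constructor
    · rintro ⟨s, hs⟩
      refine ⟨s, fun i => ?_, fun i => ?_⟩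
      · rw [eB]
        exact (hs i).1
      · have h1 := (hs i).1
        have h2 := (hs i).2
        dsimp only at h2
        rw [eA, eB]
        have h3 : z i = s / (1 - i * s) + a i := by linear_combination h2
        rw [h3, div_add' _ _ _ h1]
    · rintro ⟨s, h1, h2⟩
      have h3 : ∀ i : Fin n, 1 - (i : ℂ) * s ≠ 0 := by
        intro i h0
        apply h1 i
        rw [eB, h0]
      refine ⟨s, fun i => ⟨h3 i, ?_⟩⟩
      dsimp only
      rw [h2 i, eA, eB, ← div_add' _ _ _ (h3 i)]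
      ring
  have hint : (MvPolynomial.aeval (xR A B) : MvPolynomial (Fin n) ℂ →ₐ[ℂ] _).toRingHom.IsIntegral := by
    refine isIntegral_xR A B (⟨0, hn⟩ : Fin n) ?_ fun i => ?_
    · have h1 : B ⟨0, hn⟩ = Polynomial.C 1 := by simp [hB]
      have h2 : A ⟨0, hn⟩ = Polynomial.X + Polynomial.C (a ⟨0, hn⟩) := by simp [hA]
      rw [h1, h2, natDegree_C, natDegree_X_add_C]
      exact one_pos
    · rw [← Polynomial.coe_mapRingHom]
      refine IsCoprime.map ⟨Polynomial.C (i : ℚ), 1 - Polynomial.C (i : ℚ) * Polynomial.C (a i), ?_⟩ _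
      simp only [hA, hB]
      ring
  rw [hC, ratCurve_eq]
  exact ⟨isSubvariety_curveOf _ (DD_ne_zero B hB0) hint, dim_curveOf _ (DD_ne_zero B hB0) hint⟩

end

end Pool.Agent.Helper11.ZU
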