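import Pool.Agent.Helper11.ZP.Defs

/-! # Definitions: translates, cyclic isogenies, nondensity -/

open UpperHalfPlane MvPolynomial

namespace Pool.Agent.Helper11.ZU
open Pool.Agent.Helper11.ZP

/-- the points `x`, `y` of `Y(1)` are related by a cyclic isogeny of degree `N`: `x = j(τ)` and
`y = j(Nτ)` for some `τ` in the upper half plane -/
def CyclicIsog (N : ℕ) (x y : ℂ) : Prop :=
  ∃ τ τ' : ℍ, (τ' : ℂ) = N * (τ : ℂ) ∧ x = jInv τ ∧ y = jInv τ'

variable {n : ℕ}

/-- the translate `Z + a` -/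
def translate (Z : Set (Fin n → ℂ)) (a : Fin n → ℚ) : Set (Fin n → ℂ) :=
  {x | (fun i => x i - (a i : ℂ)) ∈ Z}

/-- the union of the atypical subvarieties of `V` is not Zariski dense in `V` -/
def AtypicalNotDense (V : Set (Fin n → ℂ)) : Prop :=
  ∃ f : MvPolynomial (Fin n) ℂ, (∃ v ∈ V, eval v f ≠ 0) ∧
    ∀ A, IsAtypical V A → ∀ x ∈ A, eval x f = 0

end Pool.Agent.Helper11.ZU
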