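import Pool.Agent.Helper11.ZU.Spec

/-! # Special hypersurfaces: the carrier -/

open UpperHalfPlane MvPolynomial

namespace Pool.Agent.Helper11.ZU
open Pool.Agent.Helper11.ZP Pool.Agent.Helper20.ZT Pool.Agent.Helper20.ZT.Prim

variable {n : ℕ}

/-- the points of the special hypersurface -/
theorem mem_hypData {N : ℕ} (hN : 0 < N) {i j : Fin n} (hij : i ≠ j) (z : Fin n → ℂ) :
    z ∈ (hypData N hN hij).carrier ↔ CyclicIsog N (z i) (z j) := by
  classical
  set E := enum j with hE
  have hcj : (hypData N hN hij).cls j = some (E ⟨i, hij⟩) := by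
    simp only [hypData, dif_pos, hE]
  have hck : ∀ k (h : k ≠ j), (hypData N hN hij).cls k = some (E ⟨k, h⟩) := by
    intro k h
    simp only [hypData, dif_neg h, hE]
  have hgj : (hypData N hN hij).g j = !![(N : ℤ), 0; 0, 1] := by
    simp only [hypData, if_true]
  have hgk : ∀ k, k ≠ j → (hypData N hN hij).g k = 1 := by
    intro k h
    simp only [hypData, if_neg h]
  constructor
  · rintro ⟨-, h⟩
    obtain ⟨τ, hτ⟩ := h (E ⟨i, hij⟩)
    obtain ⟨τ₁, h1, h1'⟩ := hτ i (hck i hij)
    obtain ⟨τ₂, h2, h2'⟩ := hτ j hcj
    rw [hgk i hij] at h1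
    rw [hgj] at h2
    have e1 : (τ₁ : ℂ) = (τ : ℂ) := by simpa using h1
    have e2 : (τ₂ : ℂ) = N * (τ : ℂ) := by simpa using h2
    refine ⟨τ₁, τ₂, by rw [e1, e2], h1', h2'⟩
  · rintro ⟨τ, τ', h, hi, hj⟩
    refine ⟨fun k hk => ?_, fun s => ?_⟩
    · by_cases h : k = j
      · rw [h, hcj] at hk
        exact absurd hk (by simp)
      · rw [hck k h] at hk
        exact absurd hk (by simp)
    · obtain ⟨⟨k, hk⟩, rfl⟩ := E.surjective s
      by_cases hki : k = i
      · subst hki
        refine ⟨τ, fun l hl => ?_⟩
        by_cases hlj : l = j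
        · subst hlj
          refine ⟨τ', ?_, hj⟩
          rw [hgj, h]
          simp
        · rw [hck l hlj] at hl
          have h1 := E.injective (Option.some_injective _ hl)
          have h2 : l = k := congrArg Subtype.val h1
          subst h2
          refine ⟨τ, ?_, hi⟩
          rw [hgk l hlj]
          simp
      · obtain ⟨σ, hσ⟩ := jInv_surjective (z k)
        refine ⟨σ, fun l hl => ?_⟩
        by_cases hlj : l = j
        · subst hlj
          rw [hcj] at hl
          have h1 := E.injective (Option.some_injective _ hl)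
          have h2 : i = k := congrArg Subtype.val h1
          exact absurd h2.symm hki
        · rw [hck l hlj] at hl
          have h1 := E.injective (Option.some_injective _ hl)
          have h2 : l = k := congrArg Subtype.val h1
          subst h2
          refine ⟨σ, ?_, hσ.symm⟩
          rw [hgk l hlj]
          simp

/-- the dimension of the special hypersurface is less than `n` -/
theorem dim_hypData {N : ℕ} (hN : 0 < N) {i j : Fin n} (hij : i ≠ j) :
    dim (hypData N hN hij).carrier < n := by
  refine dim_lt (hypPoly_ne_zero hN hij) (fun z hz => ?_) (Fin.pos i)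
  rw [eval_hypPoly]
  exact (mem_hypData hN hij z).1 hz

/-- a subvariety on which the modular polynomial vanishes lies in the special hypersurface -/
theorem subset_hypData {V : Set (Fin n → ℂ)} {N : ℕ} (hN : 0 < N) {i j : Fin n} (hij : i ≠ j)
    (h : hypPoly N hN i j ∈ vanishingIdeal ℂ V) : V ⊆ (hypData N hN hij).carrier := by
  intro z hz
  rw [mem_hypData, ← eval_hypPoly hN]
  exact mem_van.1 h z hz

/-- a subvariety contained in a proper special subvariety is atypical in itself -/
theorem isAtypical_self {V : Set (Fin n → ℂ)} (hV : IsSubvariety V) (S : SpecialData n)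
    (hS : dim S.carrier < n) (hVS : V ⊆ S.carrier) : IsAtypical V V := by
  refine ⟨S, ⟨hV, fun z hz => ⟨hz, hVS hz⟩, fun B _ h1 h2 => ?_⟩, by omega⟩
  exact Set.Subset.antisymm (fun z hz => (h2 hz).1) h1

end Pool.Agent.Helper11.ZU
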