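import Pool.Agent.Helper11.ZI.Local

/-! # Two isogenous coordinates with large denominators -/

open Finset MvPolynomial Pool.Agent.Helper11.ZP Pool.Agent.Helper20.ZT Pool.Agent.Helper11.ZI

namespace Pool.Agent.Helper11.ZU

/-- at a good place at most `d` coordinates of a point are not integral -/
lemma card_exc_le {n d : ℕ} {Z : Set (Fin n → ℂ)} (O : ValuationSubring ℂ)
    (hO : ∀ J : Finset (Fin n), J.card = d + 1 →
      ∃ f : MvPolynomial (Fin n) ℂ, f.vars ⊆ J ∧ (∀ m, f.coeff m ∈ O) ∧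
        O.valuation (f.coeff (Finsupp.equivFunOnFinite.symm fun i => f.degreeOf i)) = 1 ∧
        ∀ z ∈ Z, eval z f = 0) {z : Fin n → ℂ} (hz : z ∈ Z) (T : Finset (Fin n))
    (hT : ∀ i ∈ T, z i ∉ O) : T.card ≤ d := by
  by_contra hcon
  push Not at hcon
  obtain ⟨J, hJT, hJ⟩ := exists_subset_card_eq (show d + 1 ≤ T.card from hcon)
  obtain ⟨f, hf1, hf2, hf3, hf4⟩ := hO J hJ
  exact eval_ne_zero_of_top O f hf1 hf2 hf3 z (fun j hj => hT j (hJT hj)) (hf4 z hz)

/-- a rational number is integral at `O` if and only if `p` does not divide its denominator -/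
lemma rat_mem_iff (O : ValuationSubring ℂ) {p : ℕ} (hp : p.Prime) (hpO : (p : ℂ) ∈ O.nonunits) (a : ℚ) :
    (a : ℂ) ∈ O ↔ ¬ p ∣ a.den := by
  constructor
  · intro h hcon
    have h1 := val_rat_gt O hp hpO hcon
    exact absurd ((O.valuation_le_one_iff _).2 h) (not_le.2 h1)
  · intro h
    rw [← O.valuation_le_one_iff]
    exact val_rat_le O hp hpO h

/-- **two isogenous coordinates**: if every `d + 1` of the denominators of `a` have a large common
prime factor, then a point of `Z + a` on a special subvariety of codimension more than `d` has two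
isogenous coordinates which are integral translates of the coordinates of `a` at a place above a
large prime dividing both denominators -/
theorem exists_pair {n d p₀ : ℕ} {Z : Set (Fin n → ℂ)}
    (hgp : ∀ p : ℕ, p.Prime → p₀ ≤ p → GoodPlace d Z p) (a : Fin n → ℚ)
    (ha : ∀ J : Finset (Fin n), J.card = d + 1 → ∃ p : ℕ, p.Prime ∧ p₀ ≤ p ∧ ∀ i ∈ J, p ∣ (a i).den)
    (S : SpecialData n) (hS : S.r + d + 1 ≤ n) (x : Fin n → ℂ) (hx : x ∈ S.carrier)
    (hxZ : (fun i => x i - (a i : ℂ)) ∈ Z) :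
    ∃ (p : ℕ) (O : ValuationSubring ℂ) (s : Fin S.r) (i j : Fin n), p.Prime ∧ p₀ ≤ p ∧
      (p : ℂ) ∈ O.nonunits ∧ i ≠ j ∧ S.cls i = some s ∧ S.cls j = some s ∧ p ∣ (a i).den ∧
      p ∣ (a j).den ∧ x i - (a i : ℂ) ∈ O ∧ x j - (a j : ℂ) ∈ O := by
  classical
  choose rep hrep using S.surj
  have hrinj : Function.Injective rep := by
    intro s t h
    have h1 := hrep s
    rw [h, hrep t] at h1
    exact (Option.some_injective _ h1).symm
  -- the coordinates which do not represent their class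
  set J' : Finset (Fin n) := univ \ univ.image rep with hJ'
  have hJ'card : d + 1 ≤ J'.card := by
    rw [hJ', card_sdiff_of_subset (subset_univ _), card_univ, Fintype.card_fin,
      card_image_of_injective _ hrinj, card_univ, Fintype.card_fin]
    omega
  obtain ⟨J, hJJ', hJ⟩ := exists_subset_card_eq hJ'card
  obtain ⟨p, hp, hpp, hpa⟩ := ha J hJ
  obtain ⟨O, hpO, hO⟩ := hgp p hp hpp
  have hint : ∀ i, x i - (a i : ℂ) ∈ O → (x i ∉ O ↔ p ∣ (a i).den) := by
    intro i hi
    rw [← not_iff_not, not_not, ← rat_mem_iff O hp hpO]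
    constructor
    · intro h
      have := O.sub_mem h hi
      simpa using this
    · intro h
      have := O.add_mem _ _ hi h
      simpa using this
  by_contra hcon
  -- the class of a nonexceptional element of `J` has no other nonexceptional element
  have hone : ∀ i ∈ J, x i - (a i : ℂ) ∈ O → ∃ s, S.cls i = some s ∧
      ∀ j, j ≠ i → S.cls j = some s → x j - (a j : ℂ) ∉ O := by
    intro i hi hiO
    have h1 : x i ∉ O := (hint i hiO).2 (hpa i hi)
    obtain ⟨s, hs, hs'⟩ := class_of_notMem O S hx h1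
    refine ⟨s, hs, fun j hji hj hjO => hcon ?_⟩
    have h2 : x j ∉ O := hs' j (by rw [classOf, mem_filter]; exact ⟨mem_univ _, hj⟩)
    exact ⟨p, O, s, i, j, hp, hpp, hpO, Ne.symm hji, hs, hj, hpa i hi, (hint j hjO).1 h2, hiO, hjO⟩
  have hφ : ∀ i : J, ∃ k : Fin n, x k - (a k : ℂ) ∉ O ∧
      ((x i.1 - (a i.1 : ℂ) ∉ O ∧ k = i.1) ∨
        (x i.1 - (a i.1 : ℂ) ∈ O ∧ ∃ s, S.cls i.1 = some s ∧ k = rep s)) := by
    rintro ⟨i, hi⟩
    by_cases hiO : x i - (a i : ℂ) ∈ O
    · obtain ⟨s, hs, hs'⟩ := hone i hi hiO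
      refine ⟨rep s, hs' _ ?_ (hrep s), Or.inr ⟨hiO, s, hs, rfl⟩⟩
      intro h
      have h1 := hJJ' hi
      rw [hJ', mem_sdiff, mem_image] at h1
      exact h1.2 ⟨s, mem_univ _, h⟩
    · exact ⟨i, hiO, Or.inl ⟨hiO, rfl⟩⟩
  choose φ hφO hφ using hφ
  have hnotrep : ∀ i : J, ∀ s, i.1 ≠ rep s := by
    rintro ⟨i, hi⟩ s h
    have h1 := hJJ' hi
    rw [hJ', mem_sdiff, mem_image] at h1
    exact h1.2 ⟨s, mem_univ _, h.symm⟩
  have hφinj : Function.Injective φ := by
    intro i i' h
    rcases hφ i with ⟨h1, h2⟩ | ⟨h1, s, hs, h2⟩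
    · rcases hφ i' with ⟨h3, h4⟩ | ⟨h3, t, ht, h4⟩
      · exact Subtype.ext (h2.symm.trans (h.trans h4))
      · exact absurd (h2.symm.trans (h.trans h4)) (hnotrep i t)
    · rcases hφ i' with ⟨h3, h4⟩ | ⟨h3, t, ht, h4⟩
      · exact absurd (h4.symm.trans (h.symm.trans h2)) (hnotrep i' s)
      · have hst : s = t := hrinj (h2.symm.trans (h.trans h4))
        subst hst
        by_contra hne
        obtain ⟨s', hs', hs''⟩ := hone i.1 i.2 h1
        have : s' = s := Option.some_injective _ (hs'.symm.trans hs)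
        subst this
        exact hs'' i'.1 (fun h5 => hne (Subtype.ext h5.symm)) ht h3
  have hcard := card_exc_le O hO hxZ (univ.image φ) (by
    intro k hk
    rw [mem_image] at hk
    obtain ⟨i, -, rfl⟩ := hk
    exact hφO i)
  rw [card_image_of_injective _ hφinj, card_univ, Fintype.card_coe, hJ] at hcard
  omega

end Pool.Agent.Helper11.ZU
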