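import Pool.Agent.Helper11.ZP.Conseq

/-! # Curves in affine space: finiteness of sections -/

open MvPolynomial Pool.Agent.Helper11.ZP

namespace Pool.Agent.Helper11.ZU

variable {n : ℕ}

lemma mem_van {V : Set (Fin n → ℂ)} {f : MvPolynomial (Fin n) ℂ} :
    f ∈ vanishingIdeal ℂ V ↔ ∀ y ∈ V, eval y f = 0 := by
  rw [mem_vanishingIdeal_iff]
  simp only [aeval_eq_eval]

/-- the vanishing ideal of a subvariety is prime -/
lemma van_prime {V : Set (Fin n → ℂ)} (hV : IsSubvariety V) : (vanishingIdeal ℂ V).IsPrime := by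
  obtain ⟨I, hI, rfl⟩ := hV
  rw [IsPrime.vanishingIdeal_zeroLocus I]
  exact hI

/-- a subvariety is the zero locus of its vanishing ideal -/
lemma mem_of_van {V : Set (Fin n → ℂ)} (hV : IsSubvariety V) {y : Fin n → ℂ}
    (h : ∀ f ∈ vanishingIdeal ℂ V, eval y f = 0) : y ∈ V := by
  obtain ⟨I, hI, rfl⟩ := hV
  rw [mem_zeroLocus_iff]
  intro f hf
  rw [aeval_eq_eval]
  exact h f (le_vanishingIdeal_zeroLocus I hf)

lemma nonempty_of_isSubvariety {V : Set (Fin n → ℂ)} (hV : IsSubvariety V) : V.Nonempty := by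
  by_contra hcon
  rw [Set.not_nonempty_iff_eq_empty] at hcon
  have := van_prime hV
  rw [hcon, vanishingIdeal_empty] at this
  exact this.ne_top rfl

/-- on an irreducible curve the zeros of a nonzero function are zeros of a nonzero polynomial in each
coordinate -/
lemma exists_poly {V : Set (Fin n → ℂ)} (hV : IsSubvariety V) (hd : dim V ≤ 1)
    {f : MvPolynomial (Fin n) ℂ} (hf : f ∉ vanishingIdeal ℂ V) (i : Fin n) :
    ∃ r : Polynomial ℂ, r ≠ 0 ∧ ∀ y ∈ V, eval y f = 0 → r.eval (y i) = 0 := by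
  classical
  have hI := van_prime hV
  set I := vanishingIdeal ℂ V with hIdef
  let B := MvPolynomial (Fin n) ℂ ⧸ I
  have : IsDomain B := Ideal.Quotient.isDomain I
  let π : MvPolynomial (Fin n) ℂ →ₐ[ℂ] B := Ideal.Quotient.mkₐ ℂ I
  have hπ : ∀ g, π g = 0 ↔ g ∈ I := fun g => Ideal.Quotient.eq_zero_iff_mem
  have hf0 : π f ≠ 0 := fun h => hf ((hπ f).1 h)
  -- polynomials in one coordinate
  have hpoly : ∀ r : Polynomial ℂ, Polynomial.aeval (π (X i)) r = π (Polynomial.aeval (X i) r) := by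
    intro r
    rw [← Polynomial.aeval_algHom_apply]
  have hev : ∀ (r : Polynomial ℂ) (y : Fin n → ℂ), eval y (Polynomial.aeval (X i) r) = r.eval (y i) := by
    intro r y
    have h1 := Polynomial.aeval_algHom_apply (aeval y : MvPolynomial (Fin n) ℂ →ₐ[ℂ] ℂ) (X i) r
    rw [aeval_X] at h1
    rw [← aeval_eq_eval]
    change (aeval y : MvPolynomial (Fin n) ℂ →ₐ[ℂ] ℂ) (Polynomial.aeval (X i) r) = _
    rw [← h1, Polynomial.coe_aeval_eq_eval]
  by_cases halg : IsAlgebraic ℂ (π (X i))
  · obtain ⟨r, hr0, hr⟩ := halg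
    refine ⟨r, hr0, fun y hy _ => ?_⟩
    rw [hpoly, hπ] at hr
    have := mem_van.1 hr y hy
    rwa [hev] at this
  · have htr : AlgebraicIndependent ℂ (fun _ : Unit => π (X i)) := by
      rw [algebraicIndependent_unique_type_iff]
      exact halg
    have hfin : Algebra.trdeg ℂ B < Cardinal.aleph0 := trdeg_lt_aleph0_of_finiteType
    have hle : Algebra.trdeg ℂ B ≤ Cardinal.mk Unit := by
      have h1 : Cardinal.toNat (Algebra.trdeg ℂ B) ≤ 1 := hd
      have h2 : ((Cardinal.toNat (Algebra.trdeg ℂ B) : ℕ) : Cardinal) = Algebra.trdeg ℂ B :=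
        Cardinal.cast_toNat_of_lt_aleph0 hfin
      rw [← h2]
      simpa using h1
    have hbas := htr.isTranscendenceBasis_of_trdeg_le_of_finite hle
    have halg2 := hbas.isAlgebraic
    set R := Algebra.adjoin ℂ (Set.range fun _ : Unit => π (X i)) with hR
    obtain ⟨Q, hQ0, hQ⟩ := halg2.1 (π f)
    -- divide by the powers of the variable
    obtain ⟨k, Q', hQ'0, hQQ'⟩ : ∃ (k : ℕ) (Q' : Polynomial R), Q'.coeff 0 ≠ 0 ∧ Q = Polynomial.X ^ k * Q' := by
      obtain ⟨Q', hQ', hnd⟩ := Polynomial.exists_eq_pow_rootMultiplicity_mul_and_not_dvd Q hQ0 0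
      rw [Polynomial.C_0, sub_zero] at hQ' hnd
      exact ⟨_, Q', fun h => hnd (Polynomial.X_dvd_iff.2 h), hQ'⟩
    rw [hQQ', map_mul, map_pow, Polynomial.aeval_X] at hQ
    have hQ2 : Polynomial.aeval (π f) Q' = 0 := (mul_eq_zero.1 hQ).resolve_left (pow_ne_zero _ hf0)
    -- the constant coefficient
    have hmem1 : ∀ b : B, b ∈ R → b ∈ Algebra.adjoin ℂ ({π (X i)} : Set B) := by
      intro b hb
      rw [hR, Set.range_const] at hb
      exact hb
    have hmem := hmem1 _ (Q'.coeff 0).2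
    rw [Algebra.adjoin_singleton_eq_range_aeval] at hmem
    obtain ⟨r, hr⟩ := hmem
    have hr' : Polynomial.aeval (π (X i)) r = ((Q'.coeff 0 : R) : B) := hr
    have hr0 : r ≠ 0 := by
      rintro rfl
      rw [map_zero] at hr'
      exact hQ'0 (Subtype.ext hr'.symm)
    refine ⟨r, hr0, fun y hy hfy => ?_⟩
    -- `Q'.coeff 0` is a multiple of `π f`
    obtain ⟨b, hb⟩ : ∃ b : B, ((Q'.coeff 0 : R) : B) = π f * b := by
      have h1 : Q' = Q'.divX * Polynomial.X + Polynomial.C (Q'.coeff 0) :=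
        (Polynomial.divX_mul_X_add Q').symm
      rw [h1, map_add, map_mul, Polynomial.aeval_X, Polynomial.aeval_C] at hQ2
      refine ⟨-(Polynomial.aeval (π f) Q'.divX), ?_⟩
      have h2 : (algebraMap R B) (Q'.coeff 0) = ((Q'.coeff 0 : R) : B) := rfl
      rw [h2] at hQ2
      linear_combination hQ2
    obtain ⟨g, rfl⟩ := Ideal.Quotient.mkₐ_surjective ℂ I b
    have h3 : π (Polynomial.aeval (X i) r - f * g) = 0 := by
      rw [map_sub, map_mul, ← hpoly, hr', hb]
      exact sub_self _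
    rw [hπ] at h3
    have h4 := mem_van.1 h3 y hy
    rw [map_sub, map_mul, hfy, zero_mul, sub_zero, hev] at h4
    exact h4

/-- **finiteness of sections** of an irreducible curve -/
theorem finite_section {V : Set (Fin n → ℂ)} (hV : IsSubvariety V) (hd : dim V ≤ 1)
    {f : MvPolynomial (Fin n) ℂ} (hf : f ∉ vanishingIdeal ℂ V) : (V ∩ {y | eval y f = 0}).Finite := by
  classical
  choose r hr0 hr using exists_poly hV hd hf
  refine (Set.Finite.pi' fun i => (r i).rootSet_finite ℂ).subset ?_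
  rintro y ⟨hy, hfy⟩ i
  rw [Polynomial.mem_rootSet]
  exact ⟨hr0 i, by rw [Polynomial.coe_aeval_eq_eval]; exact hr i y hy hfy⟩

/-- a finite set has dimension zero -/
lemma dim_of_finite {A : Set (Fin n → ℂ)} (hA : A.Finite) : dim A = 0 := by
  classical
  set I := vanishingIdeal ℂ A with hIdef
  let B := MvPolynomial (Fin n) ℂ ⧸ I
  let π : MvPolynomial (Fin n) ℂ →ₐ[ℂ] B := Ideal.Quotient.mkₐ ℂ I
  have halg : Algebra.IsAlgebraic ℂ B := by
    have h1 : Algebra.IsIntegral ℂ B := by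
      have h2 : (⊤ : Subalgebra ℂ B) = Algebra.adjoin ℂ (Set.range fun i => π (X i)) := by
        have h3 : (Ideal.Quotient.mkₐ ℂ I).range = ⊤ :=
          AlgHom.range_eq_top _ |>.2 (Ideal.Quotient.mkₐ_surjective ℂ I)
        rw [← h3, ← Algebra.map_top, ← MvPolynomial.adjoin_range_X, AlgHom.map_adjoin, ← Set.range_comp]
        rfl
      refine ⟨fun b => ?_⟩
      have hb : b ∈ Algebra.adjoin ℂ (Set.range fun i => π (X i)) := by rw [← h2]; trivial
      refine Algebra.adjoin_le (S := integralClosure ℂ B) ?_ hb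
      rintro _ ⟨i, rfl⟩
      refine ⟨∏ a ∈ hA.toFinset, (Polynomial.X - Polynomial.C (a i)), ?_, ?_⟩
      · exact Polynomial.monic_prod_X_sub_C _ _
      · rw [← Polynomial.aeval_def, map_prod]
        have h4 : ∏ a ∈ hA.toFinset, Polynomial.aeval (π (X i)) (Polynomial.X - Polynomial.C (a i)) =
            π (∏ a ∈ hA.toFinset, (X i - C (a i))) := by
          rw [map_prod]
          refine Finset.prod_congr rfl fun a _ => ?_
          rw [map_sub, map_sub, Polynomial.aeval_X, Polynomial.aeval_C]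
          rfl
        rw [h4]
        change Ideal.Quotient.mk I _ = 0
        rw [Ideal.Quotient.eq_zero_iff_mem, mem_van]
        intro y hy
        rw [map_prod]
        refine Finset.prod_eq_zero (hA.mem_toFinset.2 hy) ?_
        simp
    exact Algebra.IsIntegral.isAlgebraic
  have h0 : Algebra.trdeg ℂ B = 0 := _root_.trdeg_eq_zero
  change Cardinal.toNat (Algebra.trdeg ℂ B) = 0
  rw [h0]
  simp

/-- a proper subvariety of a curve is finite -/
theorem finite_of_ssubset {V A : Set (Fin n → ℂ)} (hV : IsSubvariety V) (hd : dim V ≤ 1)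
    (hA : IsSubvariety A) (hAV : A ⊆ V) (hne : A ≠ V) : A.Finite := by
  have h1 : ∃ f ∈ vanishingIdeal ℂ A, f ∉ vanishingIdeal ℂ V := by
    by_contra hcon
    push Not at hcon
    apply hne
    refine Set.Subset.antisymm hAV fun y hy => mem_of_van hA fun f hf => mem_van.1 (hcon f hf) y hy
  obtain ⟨f, hfA, hfV⟩ := h1
  exact (finite_section hV hd hfV).subset fun y hy => ⟨hAV hy, mem_van.1 hfA y hy⟩

end Pool.Agent.Helper11.ZU
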