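import Pool.Agent.Helper11.ZU.Comb
import Pool.Agent.Helper20.ZT.Explicit

/-! # The level of a modular relation between two rational numbers with large denominators -/

open Finset Pool.Agent.Helper11.ZP Pool.Agent.Helper20.ZT Pool.Agent.Helper11.ZI

namespace Pool.Agent.Helper11.ZU

/-- rigidity for all valuations: if `x`, `y` have the valuations of `1 / p ^ e` and `1 / p ^ f`, then the
level `m` is `e f g ^ 2 / gcd(e, f) ^ 2`, and the powers of `x`, `y` with the same valuation agree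
modulo `p` up to a root of unity of exact order `g` -/
def RigG {K : Type*} [Field K] (p : ℕ) (O : ValuationSubring K) (m : ℤ) (x y : K) : Prop :=
  ∀ e f : ℕ, 0 < e → 0 < f → O.valuation ((p : K) ^ e * x) = 1 → O.valuation ((p : K) ^ f * y) = 1 →
    ∃ (g : ℕ) (ζ w : K), 0 < g ∧ m * ((Nat.gcd e f : ℕ) : ℤ) ^ 2 = e * f * g ^ 2 ∧ IsPrimitiveRoot ζ g ∧
      w ∈ O ∧ x ^ (f / Nat.gcd e f) = ζ * y ^ (e / Nat.gcd e f) * (1 + p * w)

section

variable {K : Type*} [Field K] (O : ValuationSubring K) {p : ℕ}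

/-- `u` is congruent to `1` modulo `p` -/
def Cong (O : ValuationSubring K) (p : ℕ) (u : K) : Prop := ∃ w ∈ O, u = 1 + p * w

variable {O}

lemma Cong.one : Cong O p 1 := ⟨0, zero_mem O, by ring⟩

lemma Cong.mul {u v : K} (hu : Cong O p u) (hv : Cong O p v) : Cong O p (u * v) := by
  obtain ⟨a, ha, rfl⟩ := hu
  obtain ⟨b, hb, rfl⟩ := hv
  refine ⟨a + b + p * a * b, ?_, by ring⟩
  exact O.add_mem _ _ (O.add_mem _ _ ha hb) (O.mul_mem _ _ (O.mul_mem _ _ (natCast_mem O p) ha) hb)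

lemma Cong.pow {u : K} (hu : Cong O p u) (k : ℕ) : Cong O p (u ^ k) := by
  induction k with
  | zero => rw [pow_zero]; exact Cong.one
  | succ k ih => rw [pow_succ]; exact ih.mul hu

lemma Cong.val (hpO : (p : K) ∈ O.nonunits) {u : K} (hu : Cong O p u) : O.valuation u = 1 := by
  obtain ⟨a, ha, rfl⟩ := hu
  exact unit_of_sub O (lt_one_mul O ((val_non O).1 hpO) ha)

lemma Cong.inv (hpO : (p : K) ∈ O.nonunits) {u : K} (hu : Cong O p u) : Cong O p u⁻¹ := by
  have hv := hu.val hpO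
  obtain ⟨a, ha, rfl⟩ := hu
  have h0 : (1 + (p : K) * a) ≠ 0 := by
    intro h; rw [h, map_zero] at hv; exact zero_ne_one hv
  refine ⟨-(a * (1 + p * a)⁻¹), ?_, by field_simp; ring⟩
  refine O.neg_mem _ (O.mul_mem _ _ ha ?_)
  rw [val_mem, map_inv₀, hv, inv_one]

lemma Cong.div (hpO : (p : K) ∈ O.nonunits) {u v : K} (hu : Cong O p u) (hv : Cong O p v) :
    Cong O p (u / v) := by
  rw [div_eq_mul_inv]
  exact hu.mul (hv.inv hpO)

/-- a root of unity congruent to `1` modulo `p` -/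
lemma Cong.root_eq_one (hp : p.Prime) (hp2 : 2 < p) (hp0 : (p : K) ≠ 0) (hpO : (p : K) ∈ O.nonunits)
    {ζ : K} (hζ : Cong O p ζ) {N : ℕ} (hN : 0 < N) (h : ζ ^ N = 1) : ζ = 1 := by
  obtain ⟨w, hw, rfl⟩ := hζ
  have hpm : ((p : O)) ∈ IsLocalRing.maximalIdeal O := by
    rw [← ValuationSubring.coe_mem_nonunits_iff]; simpa using hpO
  have hpO0 : (p : O) ≠ 0 := by
    intro h0
    apply hp0
    have := congrArg (Subtype.val : O → K) h0
    simpa using this
  have h1 := Pool.Agent.Helper20.ZT.root_eq_one hp hp2 hpm hpO0 N hN ⟨w, hw⟩ (by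
    apply Subtype.ext
    push_cast
    exact h)
  have h2 := congrArg (Subtype.val : O → K) h1
  have h3 : w = 0 := h2
  rw [h3]; ring

/-- the `(p - 1)`-st power of a rational number prime to `p` is congruent to `1` -/
lemma cong_int [CharZero K] (hp : p.Prime) (hpO : (p : K) ∈ O.nonunits) {z : ℤ} (hz : ¬ (p : ℤ) ∣ z) :
    Cong O p ((z : K) ^ (p - 1)) := by
  have h1 : (p : ℤ) ∣ z ^ (p - 1) - 1 := by
    have := Fact.mk hp
    have h2 : (z : ZMod p) ≠ 0 := by rwa [Ne, ZMod.intCast_zmod_eq_zero_iff_dvd]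
    have h3 := ZMod.pow_card_sub_one_eq_one h2
    rw [← ZMod.intCast_zmod_eq_zero_iff_dvd]
    push_cast
    rw [h3, sub_self]
  obtain ⟨k, hk⟩ := h1
  refine ⟨(k : K), intCast_mem O k, ?_⟩
  have := congrArg (Int.cast : ℤ → K) hk
  push_cast at this
  linear_combination this

end

/-- the shape of a rational number whose denominator is divisible by `p` -/
lemma rat_shape {p : ℕ} (hp : p.Prime) (α : ℚ) (hα : p ∣ α.den) :
    ∃ (u v : ℤ), ¬ (p : ℤ) ∣ u ∧ ¬ (p : ℤ) ∣ v ∧ α = u / ((p : ℚ) ^ (padicValNat p α.den) * v) := by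
  have := Fact.mk hp
  obtain ⟨v, hv⟩ := pow_padicValNat_dvd (p := p) (n := α.den)
  refine ⟨α.num, v, ?_, ?_, ?_⟩
  · intro h
    have h1 : p ∣ α.num.natAbs := Int.natCast_dvd.1 h
    have h2 := Nat.Coprime.eq_one_of_dvd (Nat.Coprime.coprime_dvd_left h1 α.reduced) hα
    exact hp.one_lt.ne' h2
  · intro h
    have h1 : p ∣ v := by exact_mod_cast h
    have h2 : p ^ (padicValNat p α.den + 1) ∣ α.den := by
      rw [pow_succ]
      conv_rhs => rw [hv]
      exact mul_dvd_mul_left _ h1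
    exact pow_succ_padicValNat_not_dvd α.den_nz h2
  · conv_lhs => rw [← Rat.num_div_den α]
    congr 1
    have : ((α.den : ℕ) : ℚ) = ((p ^ (padicValNat p α.den) * v : ℕ) : ℚ) := by rw [← hv]
    rw [this]
    push_cast
    ring

/-- the exponent of `p` in the denominator is positive -/
lemma exp_pos {p : ℕ} (hp : p.Prime) (α : ℚ) (hα : p ∣ α.den) : 0 < padicValNat p α.den := by
  have := Fact.mk hp
  exact Nat.pos_of_ne_zero fun h => by
    rw [padicValNat.eq_zero_iff] at h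
    rcases h with h | h | h
    · exact hp.one_lt.ne' h
    · exact α.den_nz h
    · exact h hα

section

variable {K : Type*} [Field K] [CharZero K] {O : ValuationSubring K} {p : ℕ}

lemma int_unit' (hp : p.Prime) (hpO : (p : K) ∈ O.nonunits) {z : ℤ} (hz : ¬ (p : ℤ) ∣ z) :
    O.valuation (z : K) = 1 := int_unit O hp hpO hz

/-- an integral translate of `u / (p ^ e v)` -/
lemma translate_cong (hp : p.Prime) (hpO : (p : K) ∈ O.nonunits) {u v : ℤ} (hu : ¬ (p : ℤ) ∣ u)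
    (hv : ¬ (p : ℤ) ∣ v) {e : ℕ} (he : 0 < e) {x : K} (hx : x - (u : K) / ((p : K) ^ e * v) ∈ O) :
    O.valuation ((p : K) ^ e * x) = 1 ∧ ∃ c, Cong O p c ∧ x = (u : K) / ((p : K) ^ e * v) * c := by
  have hp0 : (p : K) ≠ 0 := by exact_mod_cast hp.ne_zero
  have vu := int_unit' hp hpO hu
  have vv := int_unit' hp hpO hv
  have hu0 : (u : K) ≠ 0 := by intro h; rw [h, map_zero] at vu; exact zero_ne_one vu
  have hv0 : (v : K) ≠ 0 := by intro h; rw [h, map_zero] at vv; exact zero_ne_one vv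
  obtain ⟨l, rfl⟩ : ∃ l, e = l + 1 := ⟨e - 1, by omega⟩
  set z := x - (u : K) / ((p : K) ^ (l + 1) * v) with hz
  have hc : Cong O p (1 + (p : K) ^ (l + 1) * v * z / u) := by
    refine ⟨(p : K) ^ l * v * z / u, ?_, by rw [pow_succ]; ring⟩
    rw [div_eq_mul_inv]
    refine O.mul_mem _ _ (O.mul_mem _ _ (O.mul_mem _ _ (mem_pow O (natCast_mem O p) _) (intCast_mem O v)) hx) ?_
    rw [val_mem, map_inv₀, vu, inv_one]
  have hxc : x = (u : K) / ((p : K) ^ (l + 1) * v) * (1 + (p : K) ^ (l + 1) * v * z / u) := by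
    have : x = z + (u : K) / ((p : K) ^ (l + 1) * v) := by rw [hz]; ring
    rw [this]
    field_simp
    ring
  refine ⟨?_, _, hc, hxc⟩
  have h1 : (p : K) ^ (l + 1) * x = (u : K) / v * (1 + (p : K) ^ (l + 1) * v * z / u) := by
    rw [hxc]
    field_simp
  rw [h1, map_mul, map_div₀, vu, vv, hc.val hpO, div_one, one_mul]

end

/-- **the level of a rigid relation between integral translates of rational numbers** -/
theorem level {K : Type*} [Field K] [CharZero K] {p : ℕ} (hp : p.Prime) (hp2 : 2 < p)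
    {O : ValuationSubring K} (hpO : (p : K) ∈ O.nonunits) {α β : ℚ} (hα : p ∣ α.den) (hβ : p ∣ β.den) {x y : K}
    (hx : x - (α : K) ∈ O) (hy : y - (β : K) ∈ O) {m : ℤ} (hrig : RigG p O m x y) :
    ∃ g : ℕ, g ∣ p - 1 ∧
      m * ((Nat.gcd (padicValNat p α.den) (padicValNat p β.den) : ℕ) : ℤ) ^ 2 =
        (padicValNat p α.den) * (padicValNat p β.den) * g ^ 2 := by
  set e := padicValNat p α.den with he
  set f := padicValNat p β.den with hf
  have he0 : 0 < e := exp_pos hp α hα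
  have hf0 : 0 < f := exp_pos hp β hβ
  obtain ⟨u₁, v₁, hu₁, hv₁, h₁⟩ := rat_shape hp α hα
  obtain ⟨u₂, v₂, hu₂, hv₂, h₂⟩ := rat_shape hp β hβ
  rw [← he] at h₁
  rw [← hf] at h₂
  have h₁' : (α : K) = (u₁ : K) / ((p : K) ^ e * v₁) := by rw [h₁]; push_cast; rfl
  have h₂' : (β : K) = (u₂ : K) / ((p : K) ^ f * v₂) := by rw [h₂]; push_cast; rfl
  rw [h₁'] at hx
  rw [h₂'] at hy
  obtain ⟨vx, c, hc, hxc⟩ := translate_cong hp hpO hu₁ hv₁ he0 hx
  obtain ⟨vy, c', hc', hyc⟩ := translate_cong hp hpO hu₂ hv₂ hf0 hy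
  obtain ⟨g, ζ, w, hg, hm, hζ, hw, hrel⟩ := hrig e f he0 hf0 vx vy
  refine ⟨g, ?_, hm⟩
  set h := Nat.gcd e f with hh
  have hh0 : 0 < h := Nat.gcd_pos_of_pos_left _ he0
  obtain ⟨e', he'⟩ : h ∣ e := Nat.gcd_dvd_left _ _
  obtain ⟨f', hf'⟩ : h ∣ f := Nat.gcd_dvd_right _ _
  have e1 : e / h = e' := by rw [he']; exact Nat.mul_div_cancel_left _ hh0
  have f1 : f / h = f' := by rw [hf']; exact Nat.mul_div_cancel_left _ hh0
  rw [e1, f1] at hrel
  have hp0 : (p : K) ≠ 0 := by exact_mod_cast hp.ne_zero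
  have nz : ∀ z : ℤ, ¬ (p : ℤ) ∣ z → (z : K) ≠ 0 := by
    intro z hz
    have := int_unit' (K := K) hp hpO hz
    intro h0
    rw [h0, map_zero] at this
    exact zero_ne_one this
  have hu₁0 := nz _ hu₁
  have hv₁0 := nz _ hv₁
  have hu₂0 := nz _ hu₂
  have hv₂0 := nz _ hv₂
  have hcw : Cong O p (1 + p * w) := ⟨w, hw, rfl⟩
  have cne : ∀ {c : K}, Cong O p c → c ≠ 0 := by
    intro c hc h0
    have := hc.val hpO
    rw [h0, map_zero] at this
    exact zero_ne_one this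
  have hcw0 := cne hcw
  have hc0 := cne hc
  have hc'0 := cne hc'
  -- the root of unity is the rational unit up to `1 + p O`
  have key : ζ = (((u₁ ^ f' * v₂ ^ e' : ℤ) : K) / ((v₁ ^ f' * u₂ ^ e' : ℤ) : K)) *
      (c ^ f' / (c' ^ e' * (1 + p * w))) := by
    rw [hxc, hyc] at hrel
    have hef : ((p : K) ^ e) ^ f' = ((p : K) ^ f) ^ e' := by
      rw [← pow_mul, ← pow_mul]
      congr 1
      rw [he', hf']; ring
    have hpe : ((p : K) ^ f) ^ e' ≠ 0 := pow_ne_zero _ (pow_ne_zero _ hp0)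
    push_cast
    rw [mul_pow, div_pow, mul_pow, mul_pow, div_pow, mul_pow, hef] at hrel
    have hne : (u₂ : K) ^ e' / (((p : K) ^ f) ^ e' * (v₂ : K) ^ e') * c' ^ e' * (1 + p * w) ≠ 0 := by
      refine mul_ne_zero (mul_ne_zero (div_ne_zero (pow_ne_zero _ hu₂0) (mul_ne_zero hpe
        (pow_ne_zero _ hv₂0))) (pow_ne_zero _ hc'0)) hcw0
    have h3 : ζ = ((u₁ : K) ^ f' / (((p : K) ^ f) ^ e' * (v₁ : K) ^ f') * c ^ f') /
        ((u₂ : K) ^ e' / (((p : K) ^ f) ^ e' * (v₂ : K) ^ e') * c' ^ e' * (1 + p * w)) := by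
      rw [eq_div_iff hne, hrel]
      ring
    rw [h3]
    field_simp
  have hpZ := Nat.prime_iff_prime_int.1 hp
  have hnum : ¬ (p : ℤ) ∣ u₁ ^ f' * v₂ ^ e' := by
    intro h0
    rcases hpZ.dvd_or_dvd h0 with h0 | h0
    · exact hu₁ (hpZ.dvd_of_dvd_pow h0)
    · exact hv₂ (hpZ.dvd_of_dvd_pow h0)
  have hden : ¬ (p : ℤ) ∣ v₁ ^ f' * u₂ ^ e' := by
    intro h0
    rcases hpZ.dvd_or_dvd h0 with h0 | h0
    · exact hv₁ (hpZ.dvd_of_dvd_pow h0)
    · exact hu₂ (hpZ.dvd_of_dvd_pow h0)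
  have hcong : Cong O p (ζ ^ (p - 1)) := by
    rw [key, mul_pow, div_pow]
    exact ((cong_int hp hpO hnum).div hpO (cong_int hp hpO hden)).mul
      (((hc.pow _).div hpO ((hc'.pow _).mul hcw)).pow _)
  have h1 := hcong.root_eq_one hp hp2 hp0 hpO hg (by rw [← pow_mul, mul_comm, pow_mul, hζ.pow_eq_one, one_pow])
  exact hζ.dvd_of_pow_eq_one _ h1

end Pool.Agent.Helper11.ZU
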