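import Pool.Agent.Helper11.ZU.Main
import Pool.Agent.Helper20.ZT.PrimRigG

/-! # Atypical subvarieties of translates lie in finitely many special hypersurfaces -/

open UpperHalfPlane Finset MvPolynomial

namespace Pool.Agent.Helper11.ZU
open Pool.Agent.Helper11.ZP Pool.Agent.Helper20.ZT Pool.Agent.Helper20.ZT.Prim Pool.Agent.Helper11.ZI

/-- the combinatorial heart: a set `J` of `d + 1` elements such that, outside every set `T` of at most
`d` elements, some class has two elements, one of them in `J` -/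
lemma comb {n r d : ℕ} (cls : Fin n → Option (Fin r)) (surj : ∀ s, ∃ i, cls i = some s)
    (B : Finset (Fin r)) (hr : r + d + 1 ≤ n + B.card) :
    ∃ J : Finset (Fin n), J.card = d + 1 ∧ ∀ T : Finset (Fin n), T.card ≤ d →
      (∀ i ∈ J, i ∉ T → ∃ s, s ∉ B ∧ cls i = some s) →
        ∃ (i j : Fin n) (s : Fin r), i ∈ J ∧ i ≠ j ∧ i ∉ T ∧ j ∉ T ∧ cls i = some s ∧ cls j = some s := by
  classical
  choose rep hrep using surj
  have hrinj : Function.Injective rep := by
    intro s t h
    have h1 := hrep s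
    rw [h, hrep t] at h1
    exact (Option.some_injective _ h1).symm
  set R : Finset (Fin n) := (univ \ B).image rep with hR
  have hRcard : R.card = r - B.card := by
    rw [hR, card_image_of_injective _ hrinj, card_sdiff_of_subset (subset_univ _), card_univ,
      Fintype.card_fin]
  have hBr : B.card ≤ r := by
    have := card_le_univ B
    rwa [Fintype.card_fin] at this
  have hJ'card : d + 1 ≤ (univ \ R).card := by
    rw [card_sdiff_of_subset (subset_univ _), card_univ, Fintype.card_fin, hRcard]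
    omega
  obtain ⟨J, hJJ', hJ⟩ := exists_subset_card_eq hJ'card
  have hnotrep : ∀ i ∈ J, ∀ s, s ∉ B → i ≠ rep s := by
    intro i hi s hs h
    have h1 := hJJ' hi
    rw [mem_sdiff, hR, mem_image] at h1
    exact h1.2 ⟨s, mem_sdiff.2 ⟨mem_univ _, hs⟩, h.symm⟩
  refine ⟨J, hJ, fun T hT hcls => ?_⟩
  by_contra hcon
  have hone : ∀ i ∈ J, i ∉ T → ∀ s, cls i = some s → ∀ j, j ≠ i → cls j = some s → j ∈ T := by
    intro i hi hiT s hs j hji hj
    by_contra hjT
    exact hcon ⟨i, j, s, hi, Ne.symm hji, hiT, hjT, hs, hj⟩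
  have hφ : ∀ i : J, ∃ k : Fin n, k ∈ T ∧
      ((i.1 ∈ T ∧ k = i.1) ∨ (i.1 ∉ T ∧ ∃ s, s ∉ B ∧ cls i.1 = some s ∧ k = rep s)) := by
    rintro ⟨i, hi⟩
    by_cases hiT : i ∈ T
    · exact ⟨i, hiT, Or.inl ⟨hiT, rfl⟩⟩
    · obtain ⟨s, hsB, hs⟩ := hcls i hi hiT
      exact ⟨rep s, hone i hi hiT s hs _ (fun h => hnotrep i hi s hsB h.symm) (hrep s),
        Or.inr ⟨hiT, s, hsB, hs, rfl⟩⟩
  choose φ hφT hφ using hφ
  have hφinj : Function.Injective φ := by
    intro i i' h
    rcases hφ i with ⟨h1, h2⟩ | ⟨h1, s, hsB, hs, h2⟩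
    · rcases hφ i' with ⟨h3, h4⟩ | ⟨h3, t, htB, ht, h4⟩
      · exact Subtype.ext (h2.symm.trans (h.trans h4))
      · exact absurd (h2.symm.trans (h.trans h4)) (hnotrep i.1 i.2 t htB)
    · rcases hφ i' with ⟨h3, h4⟩ | ⟨h3, t, htB, ht, h4⟩
      · exact absurd (h4.symm.trans (h.symm.trans h2)) (hnotrep i'.1 i'.2 s hsB)
      · have hst : s = t := hrinj (h2.symm.trans (h.trans h4))
        subst hst
        by_contra hne
        exact h3 (hone i.1 i.2 h1 s hs i'.1 (fun h5 => hne (Subtype.ext h5.symm)) ht)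
  have hcard : (univ.image φ).card ≤ T.card := card_le_card (by
    intro k hk
    rw [mem_image] at hk
    obtain ⟨i, -, rfl⟩ := hk
    exact hφT i)
  rw [card_image_of_injective _ hφinj, card_univ, Fintype.card_coe, hJ] at hcard
  omega

section
variable {n : ℕ} {K : Type} [Field K] [IsAlgClosed K] [Algebra ℂ K]

/-- two isogenous coordinates of a field-valued point -/
theorem exists_pairK {d p₀ : ℕ} {Z : Set (Fin n → ℂ)}
    (hgp : ∀ p : ℕ, p.Prime → p₀ ≤ p → GoodPlace d Z p) {a : Fin n → ℚ} (ha : CommonPrimes p₀ d a)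
    (S : SpecialData n) (x : Fin n → K)
    (hxZ : ∀ f : MvPolynomial (Fin n) ℂ, (∀ z ∈ Z, eval z f = 0) →
      aeval (fun i => x i - (a i : K)) f = 0)
    (relK : ∀ (i j : Fin n) (s : Fin S.r), S.cls i = some s → S.cls j = some s →
      ∃ P : Polynomial (Polynomial OO), P.Monic ∧
        P.eval₂ (Polynomial.eval₂RingHom ((algebraMap ℂ K).comp (algebraMap OO ℂ)) (x j)) (x i) = 0)
    (constK : ∀ i : Fin n, S.cls i = none → x i = algebraMap ℂ K (S.c i))
    {t : Type} [Fintype t] (idx : t → Fin n)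
    (hK : AlgebraicIndependent ℂ (fun y : t => x (idx y)))
    (hS : S.r + d + 1 ≤ n + Fintype.card t) :
    ∃ (p : ℕ) (O : ValuationSubring K) (i j : Fin n) (s : Fin S.r), p.Prime ∧ p₀ ≤ p ∧
      (p : K) ∈ O.nonunits ∧ i ≠ j ∧ S.cls i = some s ∧ S.cls j = some s ∧ p ∣ (a i).den ∧
      p ∣ (a j).den ∧ x i - (a i : K) ∈ O ∧ x j - (a j : K) ∈ O := by
  classical
  have hchar : CharZero K := charZero_of_injective_algebraMap (algebraMap ℂ K).injective
  -- the classes of the transcendence basis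
  have hne : ∀ y : t, ∃ s, S.cls (idx y) = some s := by
    intro y
    rcases h : S.cls (idx y) with _ | s
    · exfalso
      have h1 := hK.transcendental y
      rw [constK _ h] at h1
      exact h1 (isAlgebraic_algebraMap _)
    · exact ⟨s, rfl⟩
  choose e he using hne
  have einj : Function.Injective e := by
    intro y y' hyy
    by_contra hcon
    obtain ⟨P, hP, hP2⟩ := relK (idx y) (idx y') (e y) (he y) (by rw [hyy]; exact he y')
    have h1 := hK.transcendental_adjoin (s := {y'}) (i := y) hcon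
    apply h1
    set D := Algebra.adjoin ℂ ((fun y : t => x (idx y)) '' {y'}) with hD
    have hmemD : x (idx y') ∈ D := Algebra.subset_adjoin ⟨y', rfl, rfl⟩
    let ψ : Polynomial OO →+* D :=
      Polynomial.eval₂RingHom ((algebraMap ℂ D).comp (algebraMap OO ℂ)) ⟨x (idx y'), hmemD⟩
    refine IsIntegral.isAlgebraic ⟨P.map ψ, hP.map ψ, ?_⟩
    rw [Polynomial.eval₂_map]
    have h5 : (algebraMap D K).comp ψ =
        Polynomial.eval₂RingHom ((algebraMap ℂ K).comp (algebraMap OO ℂ)) (x (idx y')) := by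
      apply Polynomial.ringHom_ext
      · intro a
        simp only [ψ, RingHom.comp_apply, Polynomial.coe_eval₂RingHom, Polynomial.eval₂_C]
        rfl
      · simp only [ψ, RingHom.comp_apply, Polynomial.coe_eval₂RingHom, Polynomial.eval₂_X]
        rfl
    rw [h5]
    exact hP2
  set B : Finset (Fin S.r) := univ.image e with hB
  have hBcard : B.card = Fintype.card t := by
    rw [hB, card_image_of_injective _ einj, card_univ]
  obtain ⟨J, hJ, hJT⟩ := comb S.cls S.surj B (d := d) (by rw [hBcard]; exact hS)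
  obtain ⟨p, hp, hpp, hpa⟩ := ha J hJ
  obtain ⟨O₀, hpO₀, hO₀⟩ := hgp p hp hpp
  obtain ⟨O, hO1, hO2, hxO⟩ := Helper11.ZT.exists_extension O₀ (fun y : t => x (idx y)) hK
  have hpO : (p : K) ∈ O.nonunits := by
    have := hO2 _ hpO₀
    rwa [map_natCast] at this
  have M2 : ∀ (i j : Fin n) (s : Fin S.r), S.cls i = some s → S.cls j = some s → x j ∈ O → x i ∈ O := by
    intro i j s hi hj hxj
    obtain ⟨P, hP, hP2⟩ := relK i j s hi hj
    exact mem_of_rel O hP hxj hP2
  have hint : ∀ i, x i - (a i : K) ∈ O → (x i ∉ O ↔ p ∣ (a i).den) := by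
    intro i hi
    have hrat : (a i : K) ∈ O ↔ ¬ p ∣ (a i).den := by
      constructor
      · intro h hcon
        exact absurd ((O.valuation_le_one_iff _).2 h) (not_le.2 (val_rat_gt O hp hpO hcon))
      · intro h
        rw [← O.valuation_le_one_iff]
        exact val_rat_le O hp hpO h
    rw [← not_iff_not, not_not, ← hrat]
    constructor
    · intro h
      have := O.sub_mem h hi
      simpa using this
    · intro h
      have := O.add_mem _ _ hi h
      simpa using this
  set T : Finset (Fin n) := univ.filter fun i => x i - (a i : K) ∉ O with hT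
  have hTiff : ∀ i, i ∉ T ↔ x i - (a i : K) ∈ O := by
    intro i
    rw [hT, mem_filter]
    simp
  have hTcard : T.card ≤ d := by
    by_contra hcon
    push Not at hcon
    obtain ⟨J', hJ'T, hJ'⟩ := exists_subset_card_eq (show d + 1 ≤ T.card from hcon)
    obtain ⟨f, hf1, hf2, hf3, hf4⟩ := hO₀ J' hJ'
    have hc0 : f.coeff (Finsupp.equivFunOnFinite.symm fun i => f.degreeOf i) ≠ 0 := by
      intro h
      rw [h, map_zero] at hf3
      exact zero_ne_one hf3
    have hinv : (f.coeff (Finsupp.equivFunOnFinite.symm fun i => f.degreeOf i))⁻¹ ∈ O₀ := by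
      rw [val_mem, map_inv₀, hf3, inv_one]
    obtain ⟨i, hi, hiO⟩ := domin O (⟨hf1, hc0⟩ : TopIn J' f) (fun m => hO1 _ (hf2 m)) (fun hcon2 => by
      have h4 := non_mul O (hO1 _ hinv) hcon2
      rw [← map_mul, inv_mul_cancel₀ hc0, map_one, val_non, map_one] at h4
      exact lt_irrefl _ h4) (hxZ f hf4)
    exact ((hTiff i).2 hiO) (hJ'T hi)
  obtain ⟨i, j, s, hiJ, hij, hiT, hjT, hi, hj⟩ := hJT T hTcard (by
    intro i hi hiT
    have hxi : x i ∉ O := (hint i ((hTiff i).1 hiT)).2 (hpa i hi)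
    rcases h : S.cls i with _ | s
    · exfalso
      apply hxi
      rw [constK i h]
      exact mem_of_isIntegral_int O ((S.hc i h).isIntegral.map (algebraMap ℂ K).toIntAlgHom)
    · refine ⟨s, fun hs => hxi ?_, rfl⟩
      rw [hB, mem_image] at hs
      obtain ⟨y, -, rfl⟩ := hs
      exact M2 i (idx y) (e y) h (he y) (hxO y))
  have hxi : x i ∉ O := (hint i ((hTiff i).1 hiT)).2 (hpa i hiJ)
  have hxj : x j ∉ O := fun h => hxi (M2 i j s hi hj h)
  exact ⟨p, O, i, j, s, hp, hpp, hpO, hij, hi, hj, hpa i hiJ, (hint j ((hTiff j).1 hjT)).1 hxj,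
    (hTiff i).1 hiT, (hTiff j).1 hjT⟩

end

/-- **atypical intersections of translates**: a subvariety of `(Z + a) ∩ S` whose dimension exceeds
`d + dim S - n` has two coordinates related by a cyclic isogeny of bounded degree -/
theorem atypical_pair {n d p₀ : ℕ} {Z : Set (Fin n → ℂ)} (hp₀ : 2 < p₀)
    (hgp : ∀ p : ℕ, p.Prime → p₀ ≤ p → GoodPlace d Z p) {a : Fin n → ℚ} (ha : CommonPrimes p₀ d a)
    (S : SpecialData n) {A : Set (Fin n → ℂ)} (hA : IsSubvariety A) (hAZ : A ⊆ translate Z a)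
    (hAS : A ⊆ S.carrier) (hd : d + dim S.carrier < dim A + n) :
    ∃ (i j : Fin n) (N : ℕ), i ≠ j ∧ IsLevel p₀ (a i) (a j) N ∧ ∀ x ∈ A, CyclicIsog N (x i) (x j) := by
  classical
  have hrS := S.le_dim
  obtain ⟨I, hI, rfl⟩ := hA
  have hvan : vanishingIdeal ℂ (zeroLocus ℂ I) = I := IsPrime.vanishingIdeal_zeroLocus I
  have hmem : ∀ f : MvPolynomial (Fin n) ℂ, (∀ y ∈ zeroLocus ℂ I, eval y f = 0) → f ∈ I := by
    intro f hf
    rw [← hvan]
    exact fun y hy => by rw [MvPolynomial.aeval_eq_eval]; exact hf y hy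
  -- function field
  let B := MvPolynomial (Fin n) ℂ ⧸ I
  let K := AlgebraicClosure (FractionRing B)
  have hcharK : CharZero K := charZero_of_injective_algebraMap (algebraMap ℂ K).injective
  let ξ : Fin n → B := fun i => Ideal.Quotient.mk I (X i)
  let x : Fin n → K := fun i => algebraMap B K (ξ i)
  have hinj : Function.Injective (algebraMap B K) := by
    rw [IsScalarTower.algebraMap_eq B (FractionRing B) K]
    exact (algebraMap (FractionRing B) K).injective.comp (IsFractionRing.injective B _)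
  have hadj : Algebra.adjoin ℂ (Set.range ξ) = ⊤ := by
    have h1 : (Ideal.Quotient.mkₐ ℂ I).range = ⊤ :=
      AlgHom.range_eq_top _ |>.2 (Ideal.Quotient.mkₐ_surjective ℂ I)
    rw [← h1, ← Algebra.map_top, ← MvPolynomial.adjoin_range_X, AlgHom.map_adjoin, ← Set.range_comp]
    rfl
  have halg : Algebra.IsAlgebraic (Algebra.adjoin ℂ (Set.range ξ)) B := by
    refine ⟨fun b => ?_⟩
    have hb : b ∈ Algebra.adjoin ℂ (Set.range ξ) := by rw [hadj]; trivial
    exact isAlgebraic_algebraMap (⟨b, hb⟩ : Algebra.adjoin ℂ (Set.range ξ))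
  obtain ⟨t, ht, hbas⟩ := exists_isTranscendenceBasis_subset (R := ℂ) (Set.range ξ)
  have hdim : dim (zeroLocus ℂ I) = Nat.card t := by
    rw [dim, hvan, ← hbas.cardinalMk_eq_trdeg]
    rfl
  have htfin : Finite t := ((Set.finite_range ξ).subset ht).to_subtype
  have hidx : ∀ y : t, ∃ i : Fin n, ξ i = y := fun y => ht y.2
  choose idx hidx using hidx
  have hK : AlgebraicIndependent ℂ (fun y : t => x (idx y)) := by
    have h1 := hbas.1.map' (f := IsScalarTower.toAlgHom ℂ B K) hinj
    have h2 : (fun y : t => x (idx y)) = (IsScalarTower.toAlgHom ℂ B K) ∘ ((↑) : t → B) := by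
      funext y
      simp only [x, hidx, Function.comp_apply, IsScalarTower.coe_toAlgHom']
    rw [h2]
    exact h1
  have hx : ∀ f : MvPolynomial (Fin n) ℂ, aeval x f = algebraMap B K (Ideal.Quotient.mk I f) := by
    intro f
    have h1 : (aeval x : MvPolynomial (Fin n) ℂ →ₐ[ℂ] K) =
        (IsScalarTower.toAlgHom ℂ B K).comp (Ideal.Quotient.mkₐ ℂ I) := by
      apply MvPolynomial.algHom_ext
      intro i
      rw [aeval_X]
      rfl
    rw [h1]
    rfl
  have hx0 : ∀ f : MvPolynomial (Fin n) ℂ, f ∈ I → aeval x f = 0 := by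
    intro f hf
    rw [hx, Ideal.Quotient.eq_zero_iff_mem.2 hf, map_zero]
  -- relations at the generic point
  have evalK : ∀ (P : Polynomial (Polynomial OO)) (i j : Fin n),
      (∀ y ∈ zeroLocus ℂ I, P.eval₂ (evO (y j)) (y i) = 0) →
        P.eval₂ (Polynomial.eval₂RingHom ((algebraMap ℂ K).comp (algebraMap OO ℂ)) (x j)) (x i) = 0 := by
    intro P i j hP2
    have h1 := hx0 (P.eval₂ (Polynomial.eval₂RingHom
      ((C : ℂ →+* MvPolynomial (Fin n) ℂ).comp (algebraMap OO ℂ)) (X j)) (X i))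
      (hmem _ fun y hy => by rw [eval_mv]; exact hP2 y hy)
    have h2 := Polynomial.hom_eval₂ P
      (Polynomial.eval₂RingHom ((C : ℂ →+* MvPolynomial (Fin n) ℂ).comp (algebraMap OO ℂ)) (X j))
      (aeval x : MvPolynomial (Fin n) ℂ →ₐ[ℂ] K).toRingHom (X i)
    have h3 : (aeval x : MvPolynomial (Fin n) ℂ →ₐ[ℂ] K).toRingHom.comp (Polynomial.eval₂RingHom
        ((C : ℂ →+* MvPolynomial (Fin n) ℂ).comp (algebraMap OO ℂ)) (X j)) =
        Polynomial.eval₂RingHom ((algebraMap ℂ K).comp (algebraMap OO ℂ)) (x j) := by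
      apply Polynomial.ringHom_ext
      · intro a
        simp
      · simp
    have h4 : (aeval x : MvPolynomial (Fin n) ℂ →ₐ[ℂ] K).toRingHom (X i) = x i := by simp
    rw [h3, h4] at h2
    rw [← h2]
    exact h1
  have relK : ∀ (i j : Fin n) (s : Fin S.r), S.cls i = some s → S.cls j = some s →
      ∃ P : Polynomial (Polynomial OO), P.Monic ∧
        P.eval₂ (Polynomial.eval₂RingHom ((algebraMap ℂ K).comp (algebraMap OO ℂ)) (x j)) (x i) = 0 := by
    intro i j s hi hj
    obtain ⟨m, hm, h⟩ := special_rel S hi hj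
    exact ⟨primPoly m, primPoly_monic m, evalK _ i j fun y hy => h y (hAS hy)⟩
  have constK : ∀ i : Fin n, S.cls i = none → x i = algebraMap ℂ K (S.c i) := by
    intro i hi
    have h1 := hx0 (X i - C (S.c i)) (hmem _ fun y hy => by
      rw [map_sub, eval_X, eval_C, (hAS hy).1 i hi, sub_self])
    rw [map_sub, aeval_X, aeval_C, sub_eq_zero] at h1
    exact h1
  have hxZ : ∀ f : MvPolynomial (Fin n) ℂ, (∀ z ∈ Z, eval z f = 0) →
      aeval (fun i => x i - (a i : K)) f = 0 := by
    intro f hf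
    have h1 := hx0 (aeval (fun i => X i - C (a i : ℂ)) f) (hmem _ fun y hy => by
      have h2 := hf _ (hAZ hy)
      rw [← aeval_eq_eval, ← AlgHom.comp_apply]
      rw [← aeval_eq_eval] at h2
      rw [← h2]
      congr 1
      apply MvPolynomial.algHom_ext
      intro i
      simp)
    rw [← AlgHom.comp_apply] at h1
    rw [← h1]
    congr 1
    apply MvPolynomial.algHom_ext
    intro i
    simp
  have : Fintype t := Fintype.ofFinite t
  obtain ⟨p, O, i, j, s, hp, hpp, hpO, hij, hi, hj, hpi, hpj, hxi, hxj⟩ :=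
    exists_pairK hgp ha S x hxZ relK constK idx hK (by
      rw [hdim, Nat.card_eq_fintype_card] at hd
      omega)
  obtain ⟨m, hm, h⟩ := special_rel S hj hi
  have h1 : ∀ y ∈ zeroLocus ℂ I, (primPoly m).eval₂ (evO (y i)) (y j) = 0 := fun y hy => h y (hAS hy)
  have hrig := primPoly_rigG m K O p hp.ne_zero hpO (x i) (x j) (evalK _ j i h1)
  obtain ⟨g, hg, hgm⟩ := level hp (by omega) hpO hpi hpj hxi hxj hrig
  obtain ⟨N, hN⟩ := Int.eq_ofNat_of_zero_le hm.out.le
  subst hN
  have hN0 : 0 < N := by exact_mod_cast hm.out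
  refine ⟨i, j, N, hij, ⟨p, g, hp, hpp, hpi, hpj, hg, by exact_mod_cast hgm⟩, fun y hy => ?_⟩
  exact (cyclicIsog_iff hN0).2 (h1 y hy)

end Pool.Agent.Helper11.ZU
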