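import Pool.Agent.Helper11.ZU.Dim
import Pool.Agent.Helper20.ZT.PrimRig

/-! # The zero set of the primitive modular polynomial -/

open UpperHalfPlane ModularForm Complex Filter Function
open scoped Real MatrixGroups Topology Manifold

namespace Pool.Agent.Helper11.ZU
open Pool.Agent.Helper11.ZP Pool.Agent.Helper20.ZT Pool.Agent.Helper20.ZT.Prim

/-- `j` is invariant under `SL₂(ℤ)` -/
lemma jInv_SL (γ : SL(2, ℤ)) (τ : ℍ) : jInv (γ • τ) = jInv τ := by
  have h1 := congrFun (disc_inv γ) τ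
  have h2 := congrFun (Ecube_inv γ) τ
  rw [SL_slash_apply] at h1 h2
  have h3 := jInv_mul (γ • τ)
  have h4 := jInv_mul τ
  have hd := discriminant_ne_zero (γ • τ)
  have hd' := discriminant_ne_zero τ
  have hz : denom γ τ ^ (-12 : ℤ) ≠ 0 := zpow_ne_zero _ (denom_ne_zero _ _)
  apply mul_right_cancel₀ hd'
  rw [h4, ← h1, ← h2, ← h3]
  ring

/-- **the zeros of the primitive modular polynomial**, in terms of an arbitrary preimage -/
theorem primPoly_zero (m : ℤ) [hm : Fact (0 < m)] {y : ℂ} (τ : ℍ)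
    (h : (primPoly m).eval₂ (evO (jInv τ)) y = 0) :
    ∃ o ∈ TP m, y = jInv (toGL hm.out (U m o) • τ) := by
  have h1 := primPoly_sum m (K := ℂ) (x := jInv τ) (y := y) h
  have hT := TP_stable m
  have h2 : ∑ i ∈ Finset.range ((TP m).card + 1), gT m (TP m) i τ * y ^ i = 0 := by
    have h3 : ∀ i, gT m (TP m) i τ * y ^ i = ModularForm.discriminant τ ^ (TP m).card *
        ((ppT hT i).eval₂ (ph ℂ) (jInv τ) * y ^ i) := by
      intro i
      rw [ppT_eval hT]
      have : ph ℂ = algebraMap OO ℂ := by ext; rfl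
      rw [this]
      ring
    rw [Finset.sum_congr rfl fun i _ => h3 i, ← Finset.mul_sum, h1, mul_zero]
  have h3 : ((PPT m (TP m)).map (ev m τ)).eval y = 0 := by
    rw [Polynomial.eval_map, Polynomial.eval₂_eq_sum_range' (ev m τ)
      (Nat.lt_succ_of_le (PPT_natDegree m (TP m)))]
    exact h2
  rw [PPT, Polynomial.map_prod, Polynomial.eval_prod] at h3
  obtain ⟨o, ho, h4⟩ := Finset.prod_eq_zero_iff.1 h3
  refine ⟨o, ho, ?_⟩
  simp only [Polynomial.map_sub, Polynomial.map_mul, Polynomial.map_C, Polynomial.map_X,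
    Polynomial.eval_sub, Polynomial.eval_mul, Polynomial.eval_C, Polynomial.eval_X] at h4
  have h5 : ev m τ (dI m o) = ModularForm.discriminant (toGL hm.out (U m o) • τ) := rfl
  have h6 : ev m τ (eI m o) = Ecube (toGL hm.out (U m o) • τ) := rfl
  rw [h5, h6, ← jInv_mul] at h4
  have hd := discriminant_ne_zero (toGL hm.out (U m o) • τ)
  apply mul_left_cancel₀ hd
  linear_combination h4

/-- the matrix `diag(m, 1)` -/
def diagM (m : ℤ) : DM m := ⟨!![m, 0; 0, 1], by simp [Matrix.det_fin_two]⟩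

/-- an integer in the progression which is prime to `d` -/
lemma exists_isCoprime (a b d : ℤ) (hd : d ≠ 0) (h : ∀ k : ℤ, k ∣ a → k ∣ b → k ∣ d → k ∣ 1) :
    ∃ k : ℤ, IsCoprime (k * a + b) d := by
  classical
  set P : Finset ℕ := d.natAbs.primeFactors.filter (fun p : ℕ => ¬ ((p : ℤ) ∣ b)) with hP
  refine ⟨((∏ p ∈ P, p : ℕ) : ℤ), ?_⟩
  rw [Int.isCoprime_iff_gcd_eq_one, Int.gcd_eq_natAbs]
  apply Nat.Coprime.gcd_eq_one
  apply Nat.coprime_of_dvd
  intro p hp hp1 hp2
  have hpd : (p : ℤ) ∣ d := Int.natCast_dvd.2 hp2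
  have hpk : (p : ℤ) ∣ ((∏ p ∈ P, p : ℕ) : ℤ) * a + b := Int.natCast_dvd.2 hp1
  by_cases hb : (p : ℤ) ∣ b
  · have h1 : (p : ℤ) ∣ ((∏ p ∈ P, p : ℕ) : ℤ) * a := (Int.dvd_add_left hb).1 hpk
    rcases (Nat.prime_iff_prime_int.1 hp).dvd_or_dvd h1 with h2 | h2
    · have h3 : p ∣ ∏ p ∈ P, p := Int.natCast_dvd_natCast.1 h2
      rw [Prime.dvd_finsetProd_iff hp.prime] at h3
      obtain ⟨q, hq, hpq⟩ := h3
      rw [hP, Finset.mem_filter] at hq
      have hqp := Nat.prime_of_mem_primeFactors hq.1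
      have : p = q := (Nat.prime_dvd_prime_iff_eq hp hqp).1 hpq
      subst this
      exact hq.2 hb
    · have h3 := h _ h2 hb hpd
      have h4 : p ∣ 1 := by exact_mod_cast h3
      exact hp.one_lt.ne' (Nat.dvd_one.1 h4)
  · have h1 : (p : ℤ) ∣ ((∏ p ∈ P, p : ℕ) : ℤ) := by
      have h2 : p ∈ P := by
        rw [hP, Finset.mem_filter]
        exact ⟨Nat.mem_primeFactors.2 ⟨hp, hp2, by simpa using hd⟩, hb⟩
      exact Int.natCast_dvd_natCast.2 (Finset.dvd_prod_of_mem _ h2)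
    exact hb ((Int.dvd_add_right (h1.mul_right a)).1 hpk)

/-- **elementary divisors** for a primitive upper triangular matrix -/
theorem smith {m : ℤ} {A : DM m} (h10 : A.1 1 0 = 0) (hA : IsPrim A) (hd : 0 < A.1 1 1) :
    ∃ γ δ : SL(2, ℤ), γ • A = rmul δ (diagM m) := by
  have had : A.1 0 0 * A.1 1 1 = m := by
    have := A.2
    rw [Matrix.det_fin_two, h10, mul_zero, sub_zero] at this
    exact this
  obtain ⟨k, hk⟩ := exists_isCoprime (A.1 0 0) (A.1 0 1) (A.1 1 1) hd.ne' (by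
    intro k h1 h2 h3
    apply hA
    intro i j
    fin_cases i <;> fin_cases j
    · exact h1
    · exact h2
    · change k ∣ A.1 1 0
      rw [h10]; exact dvd_zero _
    · exact h3)
  obtain ⟨s, t, hst⟩ := hk
  set a := A.1 0 0 with ha
  set b := A.1 0 1 with hb
  set d := A.1 1 1 with hdd
  set c := k * a + b with hc
  let γ : SL(2, ℤ) := ⟨!![d, -c; s, t], by rw [Matrix.det_fin_two_of]; linear_combination hst⟩
  let δ : SL(2, ℤ) := ⟨!![1, -k; s * a, 1 - s * a * k], by rw [Matrix.det_fin_two_of]; ring⟩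
  refine ⟨γ, δ, ?_⟩
  apply FixedDetMatrices.ext'
  change γ.1 * A.1 = (diagM m).1 * δ.1
  have hA' : A.1 = !![a, b; 0, d] := by
    ext i j
    fin_cases i <;> fin_cases j
    · rfl
    · rfl
    · exact h10
    · rfl
  rw [hA']
  change !![d, -c; s, t] * !![a, b; 0, d] = !![m, 0; 0, 1] * !![1, -k; s * a, 1 - s * a * k]
  rw [Matrix.mul_fin_two, Matrix.mul_fin_two]
  have e1 : d * b + -c * d = m * -k + 0 * (1 - s * a * k) := by
    rw [← had, hc]; ring
  have e2 : d * a + -c * 0 = m * 1 + 0 * (s * a) := by rw [← had]; ring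
  have e3 : s * a + t * 0 = 0 * 1 + 1 * (s * a) := by ring
  have e4 : s * b + t * d = 0 * -k + 1 * (1 - s * a * k) := by
    linear_combination hst - s * hc
  rw [e1, e2, e3, e4]

/-- **the zeros of the primitive modular polynomial**: they are the points `(j(τ), j(mτ))` -/
theorem primPoly_zero' (m : ℤ) [hm : Fact (0 < m)] {x y : ℂ}
    (h : (primPoly m).eval₂ (evO x) y = 0) :
    ∃ τ : ℍ, x = jInv τ ∧ y = jInv (toGL hm.out (diagM m) • τ) := by
  obtain ⟨τ, rfl⟩ := jInv_surjective x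
  obtain ⟨o, ho, hy⟩ := primPoly_zero m τ h
  obtain ⟨γ, δ, hγδ⟩ := smith (U10 m o) (TP_prim m ho) (d_pos (U m o) (U10 m o) (U00 m o))
  refine ⟨δ • τ, (jInv_SL δ τ).symm, ?_⟩
  have h1 := congrArg (fun A => toGL hm.out A • τ) hγδ
  simp only [toGL_smul, toGL_rmul, mul_smul] at h1
  rw [hy, ← jInv_SL γ]
  congr 1

/-- the converse -/
theorem primPoly_diag (m : ℤ) [hm : Fact (0 < m)] (τ : ℍ) :
    (primPoly m).eval₂ (evO (jInv τ)) (jInv (toGL hm.out (diagM m) • τ)) = 0 := by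
  apply primPoly_root
  intro k hk
  exact hk 1 1

end Pool.Agent.Helper11.ZU
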