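import Pool.Agent.Helper11.ZU.Carrier
import Pool.Agent.Helper11.ZU.Level

/-! # Unlikely intersections of translates lie in finitely many special hypersurfaces -/

open UpperHalfPlane Finset MvPolynomial

namespace Pool.Agent.Helper11.ZU
open Pool.Agent.Helper11.ZP Pool.Agent.Helper20.ZT Pool.Agent.Helper20.ZT.Prim Pool.Agent.Helper11.ZI

variable {n : ℕ}

/-- every `d + 1` of the denominators of `a` have a common prime factor `p ≥ p₀` -/
def CommonPrimes (p₀ d : ℕ) (a : Fin n → ℚ) : Prop :=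
  ∀ J : Finset (Fin n), J.card = d + 1 → ∃ p : ℕ, p.Prime ∧ p₀ ≤ p ∧ ∀ i ∈ J, p ∣ (a i).den

/-- the possible degrees of the cyclic isogenies: if the prime `p ≥ p₀` divides the denominators of
`α` and `β` exactly `e ≥ 1` and `f ≥ 1` times, the degrees `e f g ^ 2 / gcd(e, f) ^ 2`, `g ∣ p - 1` -/
def IsLevel (p₀ : ℕ) (α β : ℚ) (N : ℕ) : Prop :=
  ∃ p g : ℕ, p.Prime ∧ p₀ ≤ p ∧ p ∣ α.den ∧ p ∣ β.den ∧ g ∣ p - 1 ∧
    N * (Nat.gcd (padicValNat p α.den) (padicValNat p β.den)) ^ 2 =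
      padicValNat p α.den * padicValNat p β.den * g ^ 2

/-- there are only finitely many levels, all positive -/
lemma finite_isLevel (p₀ : ℕ) (α β : ℚ) : {N | IsLevel p₀ α β N}.Finite := by
  refine (Set.finite_Iic (α.den * β.den * α.den ^ 2)).subset ?_
  rintro N ⟨p, g, hp, hpp, h1, h2, h3, h4⟩
  rw [Set.mem_Iic]
  have := Fact.mk hp
  have he0 := exp_pos hp α h1
  have hgcd : 0 < Nat.gcd (padicValNat p α.den) (padicValNat p β.den) := Nat.gcd_pos_of_pos_left _ he0
  have hN : N ≤ padicValNat p α.den * padicValNat p β.den * g ^ 2 := by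
    rw [← h4]
    exact Nat.le_mul_of_pos_right _ (by positivity)
  have hv : ∀ m : ℕ, m ≠ 0 → padicValNat p m ≤ m := by
    intro m hm
    have h5 : p ^ padicValNat p m ≤ m := Nat.le_of_dvd (Nat.pos_of_ne_zero hm) pow_padicValNat_dvd
    exact (Nat.lt_pow_self hp.one_lt).le.trans h5
  have hg : g ≤ α.den := by
    have h5 : g ≤ p - 1 := Nat.le_of_dvd (by have := hp.one_lt; omega) h3
    have h6 : p ≤ α.den := Nat.le_of_dvd α.den_pos h1
    omega
  refine hN.trans ?_
  exact Nat.mul_le_mul (Nat.mul_le_mul (hv _ α.den_nz) (hv _ β.den_nz)) (Nat.pow_le_pow_left hg 2)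

lemma IsLevel.pos {p₀ : ℕ} {α β : ℚ} {N : ℕ} (h : IsLevel p₀ α β N) : 0 < N := by
  obtain ⟨p, g, hp, hpp, h1, h2, h3, h4⟩ := h
  have he0 := exp_pos hp α h1
  have hf0 := exp_pos hp β h2
  have hg0 : 0 < g := by
    rcases Nat.eq_zero_or_pos g with h | h
    · rw [h, zero_dvd_iff] at h3
      have := hp.one_lt
      omega
    · exact h
  rcases Nat.eq_zero_or_pos N with h | h
  · rw [h, zero_mul] at h4
    have : 0 < padicValNat p α.den * padicValNat p β.den * g ^ 2 := by positivity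
    omega
  · exact h

/-- the rigidity of the primitive modular polynomial, for all valuations -/
def RigGAll : Prop := ∀ (m : ℤ) [Fact (0 < m)] (O : ValuationSubring ℂ) (p : ℕ), p.Prime →
  (p : ℂ) ∈ O.nonunits → ∀ x y : ℂ, (primPoly m).eval₂ (evO x) y = 0 → RigG p O m x y

/-- **unlikely intersections of translates**: the points of `Z + a` on special subvarieties of
codimension more than `d` have two coordinates related by a cyclic isogeny of bounded degree -/
theorem unlikely (hrig : RigGAll) {d p₀ : ℕ} {Z : Set (Fin n → ℂ)} (hp₀ : 2 < p₀)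
    (hgp : ∀ p : ℕ, p.Prime → p₀ ≤ p → GoodPlace d Z p) {a : Fin n → ℚ} (ha : CommonPrimes p₀ d a)
    (S : SpecialData n) (hS : dim S.carrier < n - d) {x : Fin n → ℂ} (hx : x ∈ translate Z a)
    (hxS : x ∈ S.carrier) :
    ∃ (i j : Fin n) (N : ℕ), i ≠ j ∧ IsLevel p₀ (a i) (a j) N ∧ CyclicIsog N (x i) (x j) := by
  have hr := S.le_dim
  obtain ⟨p, O, s, i, j, hp, hpp, hpO, hij, hi, hj, hpi, hpj, hxi, hxj⟩ :=
    exists_pair hgp a ha S (by omega) x hxS hx
  obtain ⟨m, hm, h⟩ := special_rel S hj hi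
  have h1 := h x hxS
  obtain ⟨g, hg, hgm⟩ := level hp (by omega) hpO hpi hpj hxi hxj (hrig m O p hp hpO _ _ h1)
  obtain ⟨N, hN⟩ := Int.eq_ofNat_of_zero_le hm.out.le
  subst hN
  have hN0 : 0 < N := by exact_mod_cast hm.out
  refine ⟨i, j, N, hij, ⟨p, g, hp, hpp, hpi, hpj, hg, by exact_mod_cast hgm⟩, ?_⟩
  exact (cyclicIsog_iff hN0).2 h1

open Classical in
/-- the product of the modular polynomials of the possible levels -/
lemma exists_prod (p₀ : ℕ) (a : Fin n → ℚ) {V : Set (Fin n → ℂ)} (hV : IsSubvariety V)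
    (hVS : ∀ S : SpecialData n, dim S.carrier < n → ¬ V ⊆ S.carrier) :
    ∃ f : MvPolynomial (Fin n) ℂ, f ∉ vanishingIdeal ℂ V ∧ ∀ x : Fin n → ℂ,
      (∃ (i j : Fin n) (N : ℕ), i ≠ j ∧ IsLevel p₀ (a i) (a j) N ∧ CyclicIsog N (x i) (x j)) →
        eval x f = 0 := by
  have hI := van_prime hV
  let F : Fin n × Fin n → ℕ → MvPolynomial (Fin n) ℂ := fun ij N =>
    if h : 0 < N ∧ ij.1 ≠ ij.2 then hypPoly N h.1 ij.1 ij.2 else 1
  let T : Fin n × Fin n → Finset ℕ := fun ij => (finite_isLevel p₀ (a ij.1) (a ij.2)).toFinset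
  refine ⟨∏ ij : Fin n × Fin n, ∏ N ∈ T ij, F ij N, ?_, ?_⟩
  · intro h
    rw [hI.prod_mem_iff] at h
    obtain ⟨ij, -, h1⟩ := h
    rw [hI.prod_mem_iff] at h1
    obtain ⟨N, hN, h2⟩ := h1
    simp only [F] at h2
    split_ifs at h2 with h3
    · exact hVS _ (dim_hypData h3.1 h3.2) (subset_hypData h3.1 h3.2 h2)
    · exact hI.ne_top ((Ideal.eq_top_iff_one _).2 h2)
  · rintro x ⟨i, j, N, hij, hN, h⟩
    rw [map_prod]
    refine Finset.prod_eq_zero (mem_univ (i, j)) ?_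
    rw [map_prod]
    refine Finset.prod_eq_zero (i := N) ((finite_isLevel p₀ (a i) (a j)).mem_toFinset.2 hN) ?_
    simp only [F]
    rw [dif_pos ⟨hN.pos, hij⟩, eval_hypPoly]
    exact h

/-- **Pink's form** of the Zilber-Pink statement for `V`: if `V` is not contained in a proper special
subvariety, the points of `V` on special subvarieties of dimension less than `k` are not Zariski dense
in `V` -/
def PinkNonDense (k : ℕ) (V : Set (Fin n → ℂ)) : Prop :=
  (∀ S : SpecialData n, dim S.carrier < n → ¬ V ⊆ S.carrier) →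
    ∃ f : MvPolynomial (Fin n) ℂ, f ∉ vanishingIdeal ℂ V ∧
      ∀ S : SpecialData n, dim S.carrier < k → ∀ x ∈ V ∩ S.carrier, eval x f = 0

/-- non-density -/
theorem pink (hrig : RigGAll) {d p₀ : ℕ} {Z : Set (Fin n → ℂ)} (hp₀ : 2 < p₀)
    (hgp : ∀ p : ℕ, p.Prime → p₀ ≤ p → GoodPlace d Z p) {a : Fin n → ℚ} (ha : CommonPrimes p₀ d a)
    {V : Set (Fin n → ℂ)} (hV : IsSubvariety V) (hVZ : V ⊆ translate Z a) : PinkNonDense (n - d) V := by
  intro hVS
  obtain ⟨f, hf, hf2⟩ := exists_prod p₀ a hV hVS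
  exact ⟨f, hf, fun S hS x hx => hf2 x (unlikely hrig hp₀ hgp ha S hS (hVZ hx.1) hx.2)⟩

/-- the maximal atypical subvarieties of `V` -/
def maxAtypical (V : Set (Fin n → ℂ)) : Set (Set (Fin n → ℂ)) :=
  {A | IsAtypical V A ∧ ∀ B, IsAtypical V B → A ⊆ B → B = A}

/-- an atypical subvariety of a curve, other than the curve itself, is finite and lies on a special
subvariety of codimension at least two -/
lemma atypical_curve {V A : Set (Fin n → ℂ)} (hV : IsSubvariety V) (hd : dim V = 1)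
    (hA : IsAtypical V A) (hne : A ≠ V) :
    ∃ S : SpecialData n, dim S.carrier < n - 1 ∧ A ⊆ V ∩ S.carrier := by
  obtain ⟨S, ⟨h1, h2, h3⟩, h4⟩ := hA
  have h5 := dim_of_finite (finite_of_ssubset hV hd.le h1 (fun z hz => (h2 hz).1) hne)
  exact ⟨S, by omega, h2⟩

/-- **Zilber–Pink for curves** -/
theorem curve (hrig : RigGAll) {p₀ : ℕ} {Z : Set (Fin n → ℂ)} (hp₀ : 2 < p₀)
    (hgp : ∀ p : ℕ, p.Prime → p₀ ≤ p → GoodPlace 1 Z p) {a : Fin n → ℚ} (ha : CommonPrimes p₀ 1 a)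
    {V : Set (Fin n → ℂ)} (hV : IsSubvariety V) (hd : dim V = 1) (hVZ : V ⊆ translate Z a) :
    (maxAtypical V).Finite := by
  by_cases hVV : IsAtypical V V
  · refine (Set.finite_singleton V).subset ?_
    rintro A ⟨hA, hmax⟩
    obtain ⟨S, ⟨-, hAV, -⟩, -⟩ := hA
    exact (hmax V hVV fun z hz => (hAV hz).1).symm
  · have hVS : ∀ S : SpecialData n, dim S.carrier < n → ¬ V ⊆ S.carrier := fun S hS hcon =>
      hVV (isAtypical_self hV S hS hcon)
    obtain ⟨f, hf, hf2⟩ := pink hrig hp₀ hgp ha hV hVZ hVS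
    have hfin := finite_section hV hd.le hf
    refine hfin.finite_subsets.subset ?_
    rintro A ⟨hA, -⟩ z hz
    have hne : A ≠ V := fun h => hVV (h ▸ hA)
    obtain ⟨S, hS, hAS⟩ := atypical_curve hV hd hA hne
    exact ⟨(hAS hz).1, hf2 S hS z (hAS hz)⟩

end Pool.Agent.Helper11.ZU
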