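import Pool.Agent.Helper11.ZU.Base
import Pool.Agent.Helper11.ZU.Hyper
import Pool.Agent.Helper20.ZT.PrimLevel

/-! # Special hypersurfaces given by one cyclic isogeny -/

open UpperHalfPlane MvPolynomial

namespace Pool.Agent.Helper11.ZU
open Pool.Agent.Helper11.ZP Pool.Agent.Helper20.ZT Pool.Agent.Helper20.ZT.Prim

lemma diag_smul {m : ℤ} (hm : 0 < m) (τ : ℍ) :
    ((toGL hm (diagM m) • τ : ℍ) : ℂ) = m * (τ : ℂ) := by
  rw [coe_smul_of_det_pos (det_toGL_pos hm (diagM m)), num, denom, toGL_val, toGL_val, toGL_val, toGL_val]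
  simp [diagM]

/-- cyclic isogenies and the primitive modular polynomial -/
theorem cyclicIsog_iff {N : ℕ} (hN : 0 < N) {x y : ℂ} :
    haveI : Fact (0 < (N : ℤ)) := ⟨by exact_mod_cast hN⟩
    CyclicIsog N x y ↔ (primPoly (N : ℤ)).eval₂ (evO x) y = 0 := by
  have hm : Fact (0 < (N : ℤ)) := ⟨by exact_mod_cast hN⟩
  constructor
  · rintro ⟨τ, τ', h, rfl, rfl⟩
    have h1 : toGL hm.out (diagM (N : ℤ)) • τ = τ' := by
      ext
      rw [diag_smul, h]
      push_cast
      rfl
    rw [← h1]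
    exact primPoly_diag (N : ℤ) τ
  · intro h
    obtain ⟨τ, h1, h2⟩ := primPoly_zero' (N : ℤ) h
    refine ⟨τ, toGL hm.out (diagM (N : ℤ)) • τ, ?_, h1, h2⟩
    rw [diag_smul]
    push_cast
    rfl

variable {n : ℕ}

/-- the modular polynomial in the coordinates `i`, `j` -/
noncomputable def hypPoly (N : ℕ) (hN : 0 < N) (i j : Fin n) : MvPolynomial (Fin n) ℂ :=
  haveI : Fact (0 < (N : ℤ)) := ⟨by exact_mod_cast hN⟩
  (primPoly (N : ℤ)).eval₂
    (Polynomial.eval₂RingHom ((C : ℂ →+* MvPolynomial (Fin n) ℂ).comp (algebraMap OO ℂ)) (X i)) (X j)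

lemma eval_hypPoly {N : ℕ} (hN : 0 < N) (i j : Fin n) (z : Fin n → ℂ) :
    eval z (hypPoly N hN i j) = 0 ↔ CyclicIsog N (z i) (z j) := by
  rw [cyclicIsog_iff hN, hypPoly, eval_mv]

lemma hypPoly_ne_zero {N : ℕ} (hN : 0 < N) {i j : Fin n} (hij : i ≠ j) : hypPoly N hN i j ≠ 0 := by
  classical
  intro h
  have hm : Fact (0 < (N : ℤ)) := ⟨by exact_mod_cast hN⟩
  have h1 : ∀ y : ℂ, ((primPoly (N : ℤ)).map (evO 0)).eval y = 0 := by
    intro y
    have h2 : eval (fun k => if k = j then y else 0) (hypPoly N hN i j) = 0 := by rw [h, map_zero]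
    rw [hypPoly, eval_mv] at h2
    simp only [if_neg hij, if_true] at h2
    rw [Polynomial.eval_map]
    exact h2
  have h2 : (primPoly (N : ℤ)).map (evO 0) = 0 := Polynomial.funext fun y => by
    rw [h1, Polynomial.eval_zero]
  have h3 := (primPoly_monic (N : ℤ)).map (evO 0)
  rw [h2] at h3
  exact h3.ne_zero rfl

/-- an algebra generated by `n` elements satisfying a relation contains no `n` algebraically
independent elements -/
lemma not_indep {B : Type} [CommRing B] [Algebra ℂ B] (ξ : Fin n → B)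
    (hadj : Algebra.adjoin ℂ (Set.range ξ) = ⊤) {f : MvPolynomial (Fin n) ℂ} (hf : f ≠ 0)
    (h : aeval ξ f = 0) (b : Fin n → B) : ¬ AlgebraicIndependent ℂ b := by
  classical
  intro hb
  -- a prime ideal which meets `ℂ[b]` in zero only
  let M : Submonoid B := (nonZeroDivisors (MvPolynomial (Fin n) ℂ)).map (aeval b : MvPolynomial (Fin n) ℂ →ₐ[ℂ] B)
  have hdisj : Disjoint ((⊥ : Ideal B) : Set B) (M : Set B) := by
    rw [Set.disjoint_left]
    rintro x hx ⟨g, hg, rfl⟩
    have hx0 : aeval b g = 0 := by simpa using hx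
    have hg0 : g = 0 := (injective_iff_map_eq_zero _).1 hb g hx0
    exact nonZeroDivisors.ne_zero hg hg0
  obtain ⟨P, hP, -, hPM⟩ := Ideal.exists_le_prime_disjoint (⊥ : Ideal B) M hdisj
  let B' := B ⧸ P
  have hdom : IsDomain B' := Ideal.Quotient.isDomain P
  let π : B →ₐ[ℂ] B' := Ideal.Quotient.mkₐ ℂ P
  have hind : AlgebraicIndependent ℂ (fun i => π (b i)) := by
    rw [algebraicIndependent_iff]
    intro g hg
    by_contra hg0
    have h1 : π (aeval b g) = 0 := by
      rw [← hg]
      have : (aeval (fun i => π (b i)) : MvPolynomial (Fin n) ℂ →ₐ[ℂ] B') = π.comp (aeval b) := by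
        apply MvPolynomial.algHom_ext
        intro i
        simp
      rw [this]
      rfl
    have h2 : aeval b g ∈ P := Ideal.Quotient.eq_zero_iff_mem.1 h1
    exact Set.disjoint_left.1 hPM h2 ⟨g, mem_nonZeroDivisors_of_ne_zero hg0, rfl⟩
  have hadj' : Algebra.adjoin ℂ (Set.range fun i => π (ξ i)) = ⊤ := by
    have h1 : π.range = ⊤ := AlgHom.range_eq_top _ |>.2 (Ideal.Quotient.mkₐ_surjective ℂ P)
    rw [← h1, ← Algebra.map_top, ← hadj, AlgHom.map_adjoin, ← Set.range_comp]
    rfl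
  have halg : Algebra.IsAlgebraic (Algebra.adjoin ℂ (Set.range fun i => π (ξ i))) B' := by
    refine ⟨fun b => ?_⟩
    have hb : b ∈ Algebra.adjoin ℂ (Set.range fun i => π (ξ i)) := by rw [hadj']; trivial
    exact isAlgebraic_algebraMap (⟨b, hb⟩ : Algebra.adjoin ℂ (Set.range fun i => π (ξ i)))
  have hle : Cardinal.mk (Fin n) ≤ Algebra.trdeg ℂ B' := by
    have := hind.lift_cardinalMk_le_trdeg
    simpa using this
  have hbas := Algebra.IsAlgebraic.isTranscendenceBasis_of_le_trdeg_of_finite ℂ (fun i => π (ξ i)) hle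
  have h1 : aeval (fun i => π (ξ i)) f = 0 := by
    have h2 : (aeval (fun i => π (ξ i)) : MvPolynomial (Fin n) ℂ →ₐ[ℂ] B') = π.comp (aeval ξ) := by
      apply MvPolynomial.algHom_ext
      intro i
      simp
    rw [h2, AlgHom.comp_apply, h, map_zero]
  exact hf ((injective_iff_map_eq_zero _).1 hbas.1 f h1)

/-- a set contained in a hypersurface has smaller dimension -/
lemma dim_lt {W : Set (Fin n → ℂ)} {f : MvPolynomial (Fin n) ℂ} (hf : f ≠ 0)
    (hW : ∀ z ∈ W, eval z f = 0) (hn : 0 < n) : dim W < n := by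
  classical
  set I := vanishingIdeal ℂ W with hI
  let B := MvPolynomial (Fin n) ℂ ⧸ I
  let ξ : Fin n → B := fun i => Ideal.Quotient.mk I (X i)
  have hadj : Algebra.adjoin ℂ (Set.range ξ) = ⊤ := by
    have h1 : (Ideal.Quotient.mkₐ ℂ I).range = ⊤ :=
      AlgHom.range_eq_top _ |>.2 (Ideal.Quotient.mkₐ_surjective ℂ I)
    rw [← h1, ← Algebra.map_top, ← MvPolynomial.adjoin_range_X, AlgHom.map_adjoin, ← Set.range_comp]
    rfl
  have h1 : aeval ξ f = 0 := by
    have h2 : (aeval ξ : MvPolynomial (Fin n) ℂ →ₐ[ℂ] B) = Ideal.Quotient.mkₐ ℂ I := by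
      apply MvPolynomial.algHom_ext
      intro i
      rw [aeval_X]
      rfl
    rw [h2]
    exact Ideal.Quotient.eq_zero_iff_mem.2 (mem_van.2 hW)
  have hkey := not_indep ξ hadj hf h1
  have hle : Algebra.trdeg ℂ B ≤ ((n - 1 : ℕ) : Cardinal) := by
    unfold Algebra.trdeg
    refine ciSup_le' fun s => ?_
    by_contra hcon
    push Not at hcon
    have h2 : ((n : ℕ) : Cardinal) ≤ Cardinal.mk s.1 := by
      have h3 := Cardinal.add_one_le_of_lt hcon
      have h4 : ((n - 1 : ℕ) : Cardinal.{0}) + 1 = (n : Cardinal.{0}) := by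
        have : n - 1 + 1 = n := by omega
        exact_mod_cast congrArg (fun k : ℕ => (k : Cardinal.{0})) this
      rwa [h4] at h3
    rw [← Cardinal.mk_fin, Cardinal.le_def] at h2
    obtain ⟨φ⟩ := h2
    exact hkey (fun i => (φ i : B)) (s.2.comp φ φ.injective)
  have h3 := Cardinal.toNat_le_toNat hle (Cardinal.natCast_lt_aleph0)
  rw [Cardinal.toNat_natCast] at h3
  change Cardinal.toNat (Algebra.trdeg ℂ B) < n
  omega

/-- an enumeration of the coordinates different from `j` -/
noncomputable def enum (j : Fin n) : {k : Fin n // k ≠ j} ≃ Fin (n - 1) :=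
  Fintype.equivFinOfCardEq (by simp)

/-- the special hypersurface of the points whose coordinates `i` and `j` are related by a cyclic
isogeny of degree `N` -/
noncomputable def hypData (N : ℕ) (hN : 0 < N) {i j : Fin n} (hij : i ≠ j) : SpecialData n where
  r := n - 1
  cls k := if h : k = j then some (enum j ⟨i, hij⟩) else some (enum j ⟨k, h⟩)
  surj s := by
    refine ⟨((enum j).symm s).1, ?_⟩
    rw [dif_neg ((enum j).symm s).2]
    simp
  c _ := 0
  hc k hk := by
    exfalso
    by_cases h : k = j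
    · simp [h] at hk
    · simp [h] at hk
  g k := if k = j then !![(N : ℤ), 0; 0, 1] else 1
  hg k := by
    by_cases h : k = j
    · simp [h, Matrix.det_fin_two, hN]
    · simp [h]

end Pool.Agent.Helper11.ZU
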